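import Pool.Agent.Q70.FpI

/-!
# First passage percolation, lower tail: deterministic part

The walk to `v` is cut into pieces between points at distance `m`.  If the passage time to `v` is
small, then many pieces are fast, and many of those start at points far from each other.
-/

set_option autoImplicit false

open MeasureTheory ProbabilityTheory Finset Filter
open scoped Topology

namespace Q69.FL

open Q70.Fp

variable {μ : ℝ × ℝ → ℝ}

/-- the time constant is subadditive -/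
lemma mz_add (h : Shape μ) (x y : ℤ × ℤ) : mz μ (x + y) ≤ mz μ x + mz μ y := by
  refine le_of_forall_pos_le_add fun ε hε => ?_
  have hε3 : 0 < ε / 3 := by positivity
  have hA := prob_lim h x hε3
  have hB := prob_lim h y hε3
  have hC := prob_lim h (x + y) hε3
  have hB' : ∀ n : ℕ, nu.real {w | ε / 3 ≤ |TT (pw w) ((n : ℤ) • x) ((n : ℤ) • (x + y)) / (n : ℝ)
      - mz μ y|} = nu.real {w | ε / 3 ≤ |TT (pw w) 0 ((n : ℤ) • y) / (n : ℝ) - mz μ y|} := by
    intro n
    have hS : MeasurableSet {s : ℝ | ε / 3 ≤ |s / (n : ℝ) - mz μ y|} := by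
      apply measurableSet_le measurable_const
      fun_prop
    have h1 := nu_TT_sh ((n : ℤ) • x) ((n : ℤ) • (x + y)) hS
    have h2 : (n : ℤ) • (x + y) - (n : ℤ) • x = (n : ℤ) • y := by rw [smul_add]; abel
    rw [h2] at h1
    exact h1
  have hlim := (hA.add hB).add hC
  rw [add_zero, add_zero] at hlim
  obtain ⟨n, hn1, hn2⟩ := ((hlim.eventually (gt_mem_nhds one_pos)).and (eventually_ge_atTop 1)).exists
  rw [← hB' n] at hn1
  obtain ⟨w, h1, h2, h3⟩ := exists_out _ _ _ hn1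
  simp only [Set.mem_setOf_eq, not_le] at h1 h2 h3
  rw [abs_lt] at h1 h2 h3
  have hn0 : (0:ℝ) < n := by exact_mod_cast hn2
  have h4 := TT_tri (pw_nonneg w) 0 ((n : ℤ) • x) ((n : ℤ) • (x + y))
  have h5 : TT (pw w) 0 ((n : ℤ) • (x + y)) / n ≤ TT (pw w) 0 ((n : ℤ) • x) / n +
      TT (pw w) ((n : ℤ) • x) ((n : ℤ) • (x + y)) / n := by
    rw [← add_div]
    gcongr
  linarith [h1.1, h1.2, h2.1, h2.2, h3.1, h3.2]

lemma mz_sum (h : Shape μ) (z : ℕ → ℤ × ℤ) (k : ℕ) :
    mz μ (z k - z 0) ≤ ∑ i ∈ range k, mz μ (z (i + 1) - z i) := by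
  induction k with
  | zero => simp [mz_zero h]
  | succ k ih =>
    rw [Finset.sum_range_succ]
    have h1 := mz_add h (z k - z 0) (z (k + 1) - z k)
    have h2 : z k - z 0 + (z (k + 1) - z k) = z (k + 1) - z 0 := by abel
    rw [h2] at h1
    linarith

/-- cutting a walk into pieces between points at distance `m` -/
lemma cut_walk {w : Sym2 (ℤ × ℤ) → ℝ} (hw : ∀ e, 0 ≤ w e) {m : ℕ} (hm : 1 ≤ m) (y : ℤ × ℤ) :
    ∀ (N : ℕ) (x : ℤ × ℤ) (p : ℕ → ℤ × ℤ), IsW x y N p →
    ∃ (k : ℕ) (z : ℕ → ℤ × ℤ), z 0 = x ∧ (∀ i < k, dd (z i) (z (i + 1)) = m) ∧ dd (z k) y < m ∧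
      (∀ i ≤ k, ∃ j ≤ N, z i = p j) ∧
      ∑ i ∈ range k, TT w (z i) (z (i + 1)) + TT w (z k) y ≤ Wt w p N := by
  intro N
  induction N using Nat.strong_induction_on with
  | _ N ih =>
    intro x p hp
    by_cases hc : ∀ j ≤ N, dd x (p j) < m
    · refine ⟨0, fun _ => x, rfl, fun i hi => absurd hi (Nat.not_lt_zero _), ?_, ?_, ?_⟩
      · have := hc N le_rfl
        rwa [hp.2.1] at this
      · exact fun i _ => ⟨0, Nat.zero_le _, hp.1.symm⟩
      · simpa using TT_le hw hp
    · push Not at hc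
      classical
      obtain ⟨j0, ⟨h1, h2⟩, h3'⟩ : ∃ j0, (j0 ≤ N ∧ m ≤ dd x (p j0)) ∧
          ∀ j < j0, ¬ (j ≤ N ∧ m ≤ dd x (p j)) :=
        ⟨Nat.find hc, Nat.find_spec hc, fun j hj => Nat.find_min hc hj⟩
      have h3 : ∀ j < j0, dd x (p j) < m := by
        intro j hj
        by_contra hcon
        push Not at hcon
        exact h3' j hj ⟨by omega, hcon⟩
      have hj0pos : 1 ≤ j0 := by
        by_contra hcon
        have : j0 = 0 := by omega
        rw [this, hp.1, dd_self] at h2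
        omega
      have h4 : dd x (p j0) = m := by
        have e1 := h3 (j0 - 1) (by omega)
        have e2 := adj_iff.1 (hp.2.2 (j0 - 1) (by omega))
        rw [show j0 - 1 + 1 = j0 by omega] at e2
        have e3 := dd_tri x (p (j0 - 1)) (p j0)
        omega
      have hq : IsW (p j0) y (N - j0) (fun i => p (j0 + i)) := by
        refine ⟨by simp, ?_, fun i hi => ?_⟩
        · show p (j0 + (N - j0)) = y
          rw [show j0 + (N - j0) = N by omega]; exact hp.2.1
        · exact hp.2.2 (j0 + i) (by omega)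
      have hpre : IsW x (p j0) j0 p := ⟨hp.1, rfl, fun i hi => hp.2.2 i (by omega)⟩
      have hsum : Wt w p N = Wt w p j0 + Wt w (fun i => p (j0 + i)) (N - j0) := by
        have e0 : N = j0 + (N - j0) := by omega
        unfold Wt
        conv_lhs => rw [e0]
        rw [Finset.sum_range_add]
        rfl
      obtain ⟨k, z, a1, a2, a3, a4, a5⟩ := ih (N - j0) (by omega) (p j0) _ hq
      refine ⟨k + 1, fun i => Nat.casesOn i x z, rfl, ?_, a3, ?_, ?_⟩
      · intro i hi
        rcases i with _ | i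
        · show dd x (z 0) = m
          rw [a1]; exact h4
        · exact a2 i (by omega)
      · intro i hi
        rcases i with _ | i
        · exact ⟨0, Nat.zero_le _, hp.1.symm⟩
        · obtain ⟨j, hj, hj'⟩ := a4 i (by omega)
          exact ⟨j0 + j, by omega, hj'⟩
      · rw [Finset.sum_range_succ']
        show ∑ i ∈ range k, TT w (z i) (z (i + 1)) + TT w x (z 0) + TT w (z k) y ≤ _
        rw [hsum, a1]
        have := TT_le hw hpre
        linarith

/-- a nearly optimal chain of points is nearly optimal between any two of its points -/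
lemma chain_opt {w : Sym2 (ℤ × ℤ) → ℝ} (hw : ∀ e, 0 ≤ w e) {z : ℕ → ℤ × ℤ} {k : ℕ} {v : ℤ × ℤ}
    (h : ∑ i ∈ range k, TT w (z i) (z (i + 1)) + TT w (z k) v < TT w (z 0) v + 1) {i j : ℕ}
    (hij : i ≤ j) (hj : j ≤ k) :
    ∑ l ∈ Finset.Ico i j, TT w (z l) (z (l + 1)) < TT w (z i) (z j) + 1 := by
  have e1 := TT_chain hw z i
  have e2 := TT_chain hw (fun l => z (j + l)) (k - j)
  have e3 : ∑ l ∈ range (k - j), TT w (z (j + l)) (z (j + (l + 1))) =
      ∑ l ∈ Finset.Ico j k, TT w (z l) (z (l + 1)) := by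
    rw [Finset.sum_Ico_eq_sum_range]
    rfl
  simp only [add_zero] at e2
  rw [show j + (k - j) = k by omega, e3] at e2
  have e4 : ∑ i ∈ range k, TT w (z i) (z (i + 1)) = ∑ l ∈ range i, TT w (z l) (z (l + 1)) +
      ∑ l ∈ Finset.Ico i j, TT w (z l) (z (l + 1)) + ∑ l ∈ Finset.Ico j k, TT w (z l) (z (l + 1)) := by
    rw [Finset.range_eq_Ico, Finset.range_eq_Ico, Finset.sum_Ico_consecutive _ (Nat.zero_le i) hij,
      Finset.sum_Ico_consecutive _ (Nat.zero_le j) hj]
  have e5 := TT_tri hw (z 0) (z i) v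
  have e6 := TT_tri hw (z i) (z j) v
  have e7 := TT_tri hw (z j) (z k) v
  rw [e4] at h
  linarith

/-- rounding to the grid of mesh `s` -/
def rd (s : ℕ) (x : ℤ × ℤ) : ℤ × ℤ := ((s:ℤ) * (x.1 / s), (s:ℤ) * (x.2 / s))

lemma rd_coord {s : ℕ} (hs : 1 ≤ s) (a : ℤ) : 0 ≤ a - (s:ℤ) * (a / s) ∧ a - (s:ℤ) * (a / s) < s := by
  have hs0 : (0:ℤ) < s := by exact_mod_cast hs
  have h1 := Int.emod_nonneg a hs0.ne'
  have h2 := Int.emod_lt_of_pos a hs0
  have h3 := Int.emod_def a s
  constructor <;> omega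

lemma dd_rd {s : ℕ} (hs : 1 ≤ s) (x : ℤ × ℤ) : dd x (rd s x) ≤ 2 * s := by
  have h1 := rd_coord hs x.1
  have h2 := rd_coord hs x.2
  simp only [dd, rd]
  omega

/-- the possible ends of a piece which starts at `x` -/
noncomputable def nb (s m : ℕ) (x : ℤ × ℤ) : Finset (ℤ × ℤ) :=
  ((ball (m + 4 * s) x).image (rd s)).filter (fun y => m ≤ dd x y + 4 * s ∧ dd x y ≤ m + 4 * s)

/-- a fast piece from `x`, seen in a ball -/
def Fast (μ : ℝ × ℝ → ℝ) (W : Ed → ℝ) (s m : ℕ) (g : ℝ) (x : ℤ × ℤ) : Prop :=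
  ∃ y ∈ nb s m x, TB W (66 * (m + 4 * s)) x y < mz μ (y - x) - g

lemma dd_sub (a b c d : ℤ × ℤ) : dd (a - b) (c - d) ≤ dd a c + dd b d := by
  simp only [dd, Prod.fst_sub, Prod.snd_sub]; omega

/-- a small passage time forces many fast pieces which are far from each other -/
lemma far_fast (h : Shape μ) {w : Ed → ℝ} (hw : ∀ e, 0 ≤ w e) {v : ℤ × ℤ} {n m₁ s r : ℕ}
    (hn : dd 0 v = n) (hm1 : 1 ≤ m₁) (hs1 : 1 ≤ s) (hsm : s ≤ 66 * m₁) {S D g : ℝ} (hS1 : 1 ≤ S)
    (hD : 0 ≤ D) (hg : 0 ≤ g) (hT : TT w 0 v < mz μ v - S)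
    (G1 : ¬ Bad w 0 (66 * n + 1) (3 * (n:ℝ)))
    (G2 : ∀ x ∈ ball (66 * n) 0, ∀ y ∈ ball (66 * n) 0, dd x y = 66 * m₁ → 3 * (m₁:ℝ) ≤ TT w x y)
    (G3 : ∀ x ∈ ball (66 * n) 0, ∀ y ∈ ball (66 * n) 0, dd x y ≤ 664 * (66 * m₁) →
      TT w x y < 3 * ((664 * (66 * m₁) : ℕ) : ℝ))
    (G3' : ∀ x ∈ ball (66 * n) 0, TT w x (rd s x) ≤ 6 * s ∧ TT w (rd s x) x ≤ 6 * s)
    (G4 : ∀ x ∈ (ball (66 * n) 0).image (rd s), ∀ y ∈ nb s (66 * m₁) x,
      TB w (66 * (66 * m₁ + 4 * s)) x y ≤ TT w x y)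
    (G5 : ∀ x ∈ ball (66 * n) 0, ∀ y ∈ ball (66 * n) 0, dd x y ≤ 66 * m₁ →
      mz μ (y - x) - D ≤ TT w x y)
    (hr : 43825 * (r:ℝ) * D + (n:ℝ) / m₁ * g + D + 1 ≤ S) :
    ∃ I : Finset (ℤ × ℤ), I ⊆ (ball (66 * n) 0).image (rd s) ∧ I.card = r ∧
      (∀ x ∈ I, ∀ y ∈ I, x ≠ y → 2 * (66 * (66 * m₁ + 4 * s)) < dd x y) ∧
      ∀ x ∈ I, Fast μ w s (66 * m₁) (g - 24 * s) x := by
  classical
  have hup : mz μ v ≤ 3 * (n:ℝ) := by rw [← hn]; exact mz_up h v
  have hm0 : (0:ℝ) < m₁ := by exact_mod_cast hm1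
  -- a nearly optimal walk
  obtain ⟨N, p, hp, hlt⟩ := exists_lt (show TT w 0 v < TT w 0 v + 1 by linarith)
  have hlt3 : Wt w p N < 3 * (n:ℝ) := by linarith
  have hin : ∀ j ≤ N, p j ∈ ball (66 * n) 0 := by
    intro j hj
    rw [mem_ball]
    by_contra hcon
    push Not at hcon
    obtain ⟨q, h1, h2, h3, h4⟩ := bad_of_exit hw hp hj hcon
    exact G1 ⟨q, h1, h2, h3, h4.trans hlt3.le⟩
  obtain ⟨k, z, z0, z1, z2, z3, z4⟩ := cut_walk hw (show 1 ≤ 66 * m₁ by omega) v N 0 p hp
  have hzin : ∀ i ≤ k, z i ∈ ball (66 * n) 0 := by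
    intro i hi
    obtain ⟨j, hj, hj'⟩ := z3 i hi
    rw [hj']; exact hin j hj
  have hopt : ∑ i ∈ range k, TT w (z i) (z (i + 1)) + TT w (z k) v < TT w (z 0) v + 1 := by
    rw [z0]; exact lt_of_le_of_lt z4 hlt
  -- the number of pieces
  have hge : ∀ i j : ℕ, i ≤ j → j ≤ k → ((j:ℝ) - i) * (3 * m₁) ≤
      ∑ l ∈ Finset.Ico i j, TT w (z l) (z (l + 1)) := by
    intro i j hij hj
    calc ((j:ℝ) - i) * (3 * m₁) = ∑ _l ∈ Finset.Ico i j, (3 * (m₁:ℝ)) := by
          rw [Finset.sum_const, Nat.card_Ico, nsmul_eq_mul]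
          push_cast [Nat.cast_sub hij]
          ring
      _ ≤ _ := by
          refine Finset.sum_le_sum fun l hl => ?_
          rw [Finset.mem_Ico] at hl
          exact G2 _ (hzin l (by omega)) _ (hzin (l + 1) (by omega)) (z1 l (by omega))
  have hk : (k:ℝ) ≤ n / m₁ := by
    have e1 := hge 0 k (Nat.zero_le _) le_rfl
    rw [← Finset.range_eq_Ico] at e1
    have e2 := TT_nonneg hw (z k) v
    rw [le_div_iff₀ hm0]
    push_cast at e1
    nlinarith [hopt, z4]
  -- pieces far apart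
  have hfar : ∀ i j : ℕ, i + 43825 ≤ j → j ≤ k → 664 * (66 * m₁) < dd (z i) (z j) := by
    intro i j hij hj
    by_contra hcon
    push Not at hcon
    have e1 := hge i j (by omega) hj
    have e2 := chain_opt hw hopt (show i ≤ j by omega) hj
    have e3 := G3 _ (hzin i (by omega)) _ (hzin j hj) hcon
    have e4 : (i:ℝ) + 43825 ≤ j := by exact_mod_cast hij
    have e5 : (1:ℝ) ≤ m₁ := by exact_mod_cast hm1
    push_cast at e3
    nlinarith
  -- fast pieces
  set F : Finset ℕ := (range k).filter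
    (fun i => TT w (z i) (z (i + 1)) < mz μ (z (i + 1) - z i) - g) with hF
  have hdef : ∀ i < k, mz μ (z (i + 1) - z i) - TT w (z i) (z (i + 1)) ≤ D := by
    intro i hi
    have := G5 _ (hzin i (by omega)) (z (i + 1)) (hzin (i + 1) (by omega)) (z1 i hi).le
    linarith
  have hcard : 43825 * r ≤ F.card := by
    by_contra hcon
    push Not at hcon
    have c1 : (F.card : ℝ) ≤ 43825 * r := by
      have : F.card ≤ 43825 * r := hcon.le
      exact_mod_cast this
    have c2 : mz μ v ≤ ∑ i ∈ range k, mz μ (z (i + 1) - z i) + mz μ (v - z k) := by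
      have e1 := mz_add h (z k) (v - z k)
      have e2 := mz_sum h z k
      rw [z0, sub_zero] at e2
      rw [show z k + (v - z k) = v by abel] at e1
      linarith
    have c3 : mz μ (v - z k) - D ≤ TT w (z k) v :=
      G5 _ (hzin k le_rfl) v (mem_ball.2 (by omega)) z2.le
    have c4 : ∑ i ∈ range k, (mz μ (z (i + 1) - z i) - TT w (z i) (z (i + 1))) ≤
        F.card * D + k * g := by
      rw [← Finset.sum_filter_add_sum_filter_not (range k)
        (fun i => TT w (z i) (z (i + 1)) < mz μ (z (i + 1) - z i) - g)]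
      refine add_le_add ?_ ?_
      · calc _ ≤ ∑ _i ∈ F, D := Finset.sum_le_sum fun i hi => by
              rw [Finset.mem_filter, Finset.mem_range] at hi
              exact hdef i hi.1
          _ = _ := by rw [Finset.sum_const, nsmul_eq_mul]
      · calc _ ≤ ∑ _i ∈ (range k).filter (fun i => ¬ TT w (z i) (z (i + 1)) <
                mz μ (z (i + 1) - z i) - g), g := Finset.sum_le_sum fun i hi => by
              rw [Finset.mem_filter, not_lt] at hi
              linarith [hi.2]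
          _ = (((range k).filter (fun i => ¬ TT w (z i) (z (i + 1)) <
                mz μ (z (i + 1) - z i) - g)).card : ℝ) * g := by rw [Finset.sum_const, nsmul_eq_mul]
          _ ≤ k * g := by
              refine mul_le_mul_of_nonneg_right ?_ hg
              have := Finset.card_filter_le (range k) (fun i => ¬ TT w (z i) (z (i + 1)) <
                mz μ (z (i + 1) - z i) - g)
              rw [Finset.card_range] at this
              exact_mod_cast this
    rw [Finset.sum_sub_distrib] at c4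
    have c5 : (F.card : ℝ) * D ≤ 43825 * r * D := mul_le_mul_of_nonneg_right c1 hD
    have c6 : (k:ℝ) * g ≤ n / m₁ * g := mul_le_mul_of_nonneg_right hk hg
    linarith
  -- one residue class
  obtain ⟨ρ, -, hρ⟩ := Finset.exists_le_card_fiber_of_mul_le_card_of_maps_to
    (s := F) (t := range 43825) (f := fun i => i % 43825) (n := r)
    (fun i _ => Finset.mem_range.2 (Nat.mod_lt _ (by norm_num))) ⟨0, by simp⟩
    (by rw [Finset.card_range]; exact hcard)
  set F' := F.filter (fun i => i % 43825 = ρ) with hF'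
  obtain ⟨F'', hF1, hF2⟩ := Finset.exists_subset_card_eq hρ
  have hmem : ∀ i ∈ F'', i < k ∧ TT w (z i) (z (i + 1)) < mz μ (z (i + 1) - z i) - g ∧
      i % 43825 = ρ := by
    intro i hi
    have := hF1 hi
    rw [hF', Finset.mem_filter, hF, Finset.mem_filter, Finset.mem_range] at this
    exact ⟨this.1.1, this.1.2, this.2⟩
  have hdist : ∀ i ∈ F'', ∀ j ∈ F'', i < j → 2 * (66 * (66 * m₁ + 4 * s)) < dd (rd s (z i)) (rd s (z j)) := by
    intro i hi j hj hij
    have e1 := hmem i hi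
    have e2 := hmem j hj
    have e3 := hfar i j (by omega) (by omega)
    have e4 := dd_rd hs1 (z i)
    have e5 := dd_rd hs1 (z j)
    have e6 := dd_tri (z i) (rd s (z i)) (z j)
    have e7 := dd_tri (rd s (z i)) (rd s (z j)) (z j)
    rw [dd_comm (rd s (z j))] at e7
    omega
  have hinj : Set.InjOn (fun i => rd s (z i)) (F'' : Set ℕ) := by
    intro i hi j hj hij
    rcases lt_trichotomy i j with hlt | heq | hgt
    · have := hdist i hi j hj hlt
      simp only at hij
      rw [hij, dd_self] at this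
      omega
    · exact heq
    · have := hdist j hj i hi hgt
      simp only at hij
      rw [hij, dd_self] at this
      omega
  refine ⟨F''.image (fun i => rd s (z i)), ?_, ?_, ?_, ?_⟩
  · intro x hx
    obtain ⟨i, hi, rfl⟩ := Finset.mem_image.1 hx
    exact Finset.mem_image.2 ⟨z i, hzin i (hmem i hi).1.le, rfl⟩
  · rw [Finset.card_image_of_injOn hinj, hF2]
  · intro x hx y hy hxy
    obtain ⟨i, hi, rfl⟩ := Finset.mem_image.1 hx
    obtain ⟨j, hj, rfl⟩ := Finset.mem_image.1 hy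
    rcases lt_trichotomy i j with hlt | heq | hgt
    · exact hdist i hi j hj hlt
    · rw [heq] at hxy; exact absurd rfl hxy
    · rw [dd_comm]; exact hdist j hj i hi hgt
  · intro x hx
    obtain ⟨i, hi, rfl⟩ := Finset.mem_image.1 hx
    obtain ⟨hik, hfast, -⟩ := hmem i hi
    have d1 := dd_rd hs1 (z i)
    have d2 := dd_rd hs1 (z (i + 1))
    have d3 := z1 i hik
    have d4 := dd_tri (rd s (z i)) (z i) (z (i + 1))
    have d5 := dd_tri (rd s (z i)) (z (i + 1)) (rd s (z (i + 1)))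
    have d6 := dd_comm (rd s (z i)) (z i)
    have d7 := dd_tri (z i) (rd s (z i)) (z (i + 1))
    have d8 := dd_tri (rd s (z i)) (rd s (z (i + 1))) (z (i + 1))
    have d9 := dd_comm (rd s (z (i + 1))) (z (i + 1))
    have hy : rd s (z (i + 1)) ∈ nb s (66 * m₁) (rd s (z i)) := by
      rw [nb, Finset.mem_filter]
      refine ⟨Finset.mem_image.2 ⟨z (i + 1), mem_ball.2 (by omega), rfl⟩, by omega, by omega⟩
    refine ⟨rd s (z (i + 1)), hy, ?_⟩
    have t1 := G4 _ (Finset.mem_image.2 ⟨z i, hzin i hik.le, rfl⟩) _ hy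
    have t2 := TT_tri hw (rd s (z i)) (z i) (rd s (z (i + 1)))
    have t3 := TT_tri hw (z i) (z (i + 1)) (rd s (z (i + 1)))
    have t4 := (G3' _ (hzin i hik.le)).2
    have t5 := (G3' _ (hzin (i + 1) (by omega))).1
    have t6 := mz_lip h (rd s (z (i + 1)) - rd s (z i)) (z (i + 1) - z i)
    have t7 : (dd (rd s (z (i + 1)) - rd s (z i)) (z (i + 1) - z i) : ℝ) ≤ 4 * s := by
      have e1 := dd_sub (rd s (z (i + 1))) (rd s (z i)) (z (i + 1)) (z i)
      have e2 : dd (rd s (z (i + 1)) - rd s (z i)) (z (i + 1) - z i) ≤ 4 * s := by omega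
      exact_mod_cast e2
    linarith

end Q69.FL
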