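import Pool.Agent.Q69.FL.A

/-!
# First passage percolation, lower tail: fast pieces far from each other are independent
-/

set_option autoImplicit false

open MeasureTheory ProbabilityTheory Finset Filter
open scoped Topology

namespace Q69.FL

open Q70.Fp

variable {μ : ℝ × ℝ → ℝ}

lemma ediv_bounds {s R : ℕ} (hs : 1 ≤ s) {a : ℤ} (h : a.natAbs ≤ R) :
    -((R / s : ℕ) : ℤ) - 1 ≤ a / s ∧ a / s ≤ ((R / s : ℕ) : ℤ) := by
  have hs0 : (0:ℤ) < s := by exact_mod_cast hs
  have h1 := Int.emod_nonneg a hs0.ne'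
  have h2 := Int.emod_lt_of_pos a hs0
  have h3 := Int.emod_def a s
  have h4 := Nat.div_add_mod R s
  have h5 := Nat.mod_lt R (show 0 < s by omega)
  have h4' : (s:ℤ) * ((R / s : ℕ) : ℤ) + ((R % s : ℕ) : ℤ) = R := by exact_mod_cast h4
  have h5' : ((R % s : ℕ) : ℤ) < s := by exact_mod_cast h5
  have h5'' : (0:ℤ) ≤ ((R % s : ℕ) : ℤ) := Nat.cast_nonneg _
  have h6 : a ≤ R ∧ -(R:ℤ) ≤ a := by omega
  constructor
  · by_contra hcon
    push Not at hcon
    have : a / s + 1 ≤ -((R / s : ℕ) : ℤ) - 1 := by omega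
    nlinarith
  · by_contra hcon
    push Not at hcon
    have : ((R / s : ℕ) : ℤ) + 1 ≤ a / s := by omega
    nlinarith

lemma count_rd {s : ℕ} (hs : 1 ≤ s) (R : ℕ) :
    ((ball R 0).image (rd s)).card ≤ (2 * (R / s) + 2) ^ 2 := by
  classical
  set A : Finset ℤ := Finset.Icc (-((R / s : ℕ) : ℤ) - 1) ((R / s : ℕ) : ℤ) with hA
  have hsub : (ball R 0).image (rd s) ⊆ (A ×ˢ A).image (fun a => ((s:ℤ) * a.1, (s:ℤ) * a.2)) := by
    intro x hx
    obtain ⟨y, hy, rfl⟩ := Finset.mem_image.1 hx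
    rw [mem_ball] at hy
    have h1 : y.1.natAbs ≤ R ∧ y.2.natAbs ≤ R := by
      simp only [dd, Prod.fst_zero, Prod.snd_zero, sub_zero] at hy
      omega
    have h2 := ediv_bounds hs h1.1
    have h3 := ediv_bounds hs h1.2
    refine Finset.mem_image.2 ⟨(y.1 / s, y.2 / s), ?_, rfl⟩
    rw [Finset.mem_product, hA, Finset.mem_Icc, Finset.mem_Icc]
    exact ⟨h2, h3⟩
  refine (Finset.card_le_card hsub).trans (Finset.card_image_le.trans ?_)
  rw [Finset.card_product, hA, Int.card_Icc, sq]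
  refine Nat.mul_le_mul ?_ ?_ <;> omega

lemma count_nb {s : ℕ} (hs : 1 ≤ s) (m : ℕ) {x : ℤ × ℤ} {R : ℕ} (hx : x ∈ (ball R 0).image (rd s)) :
    (nb s m x).card ≤ 18 * (2 * (m / s) + 9) := by
  classical
  obtain ⟨x', -, rfl⟩ := Finset.mem_image.1 hx
  set q : ℕ := m / s with hq
  have hqm : s * q + m % s = m := Nat.div_add_mod m s
  have hqm' := Nat.mod_lt m (show 0 < s by omega)
  set A : Finset ℤ := Finset.Icc (-((q : ℤ) + 4)) ((q : ℤ) + 4) with hA
  set B : Finset ℤ := Finset.Icc (-4 : ℤ) 4 with hB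
  set E : Finset ℤ := {1, -1} with hE
  have hsub : nb s m (rd s x') ⊆ (A ×ˢ (B ×ˢ E)).image
      (fun a => ((s:ℤ) * (x'.1 / s + a.1), (s:ℤ) * (x'.2 / s + a.2.2 * ((q:ℤ) - |a.1| + a.2.1)))) := by
    intro y hy
    rw [nb, Finset.mem_filter] at hy
    obtain ⟨hy1, hy2, hy3⟩ := hy
    obtain ⟨y', -, rfl⟩ := Finset.mem_image.1 hy1
    set u : ℤ := y'.1 / s - x'.1 / s with hu
    set t : ℤ := y'.2 / s - x'.2 / s with ht
    have hd : dd (rd s x') (rd s y') = s * (u.natAbs + t.natAbs) := by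
      simp only [dd, rd, hu, ht]
      rw [← mul_sub, ← mul_sub, Int.natAbs_mul, Int.natAbs_mul, Int.natAbs_natCast, mul_add]
    rw [hd] at hy2 hy3
    have e1 : u.natAbs + t.natAbs ≤ q + 4 := by
      by_contra hcon
      push Not at hcon
      have : s * (q + 5) ≤ s * (u.natAbs + t.natAbs) := Nat.mul_le_mul_left s (by omega)
      have e2 : s * (q + 5) = s * q + 5 * s := by ring
      omega
    have e2 : q ≤ u.natAbs + t.natAbs + 4 := by
      by_contra hcon
      push Not at hcon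
      have : s * (u.natAbs + t.natAbs + 5) ≤ s * q := Nat.mul_le_mul_left s (by omega)
      have e3 : s * (u.natAbs + t.natAbs + 5) = s * (u.natAbs + t.natAbs) + 5 * s := by ring
      omega
    have hau : |u| = (u.natAbs : ℤ) := Int.abs_eq_natAbs u
    refine Finset.mem_image.2 ⟨(u, (t.natAbs : ℤ) + |u| - q, if 0 ≤ t then 1 else -1), ?_, ?_⟩
    · simp only [Finset.mem_product, hA, hB, hE, Finset.mem_Icc, Finset.mem_insert,
        Finset.mem_singleton]
      refine ⟨by omega, by rw [hau]; omega, ?_⟩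
      by_cases h0 : 0 ≤ t
      · simp [h0]
      · simp [h0]
    · simp only [rd, Prod.mk.injEq]
      refine ⟨by rw [hu]; ring, ?_⟩
      have e5 : (if 0 ≤ t then (1:ℤ) else -1) * ((q:ℤ) - |u| + ((t.natAbs : ℤ) + |u| - q)) = t := by
        by_cases h0 : 0 ≤ t
        · rw [if_pos h0, one_mul]
          omega
        · rw [if_neg h0]
          omega
      rw [e5, ht]
      ring
  refine (Finset.card_le_card hsub).trans (Finset.card_image_le.trans ?_)
  rw [Finset.card_product, Finset.card_product, hA, hB, Int.card_Icc, Int.card_Icc]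
  have hE2 : E.card ≤ 2 := Finset.card_le_two
  calc _ ≤ (2 * q + 9) * (9 * 2) := Nat.mul_le_mul (by omega) (Nat.mul_le_mul (by norm_num) hE2)
    _ = _ := by ring

lemma fast_set (s m : ℕ) (g : ℝ) (x : ℤ × ℤ) : {w : Ed → ℝ | Fast μ (pw w) s m g x} =
    ⋃ y ∈ nb s m x, {w | TB (pw w) (66 * (m + 4 * s)) x y < mz μ (y - x) - g} := by
  ext w
  simp only [Fast, Set.mem_setOf_eq, Set.mem_iUnion, exists_prop]

lemma measurable_fast (s m : ℕ) (g : ℝ) (x : ℤ × ℤ) :
    MeasurableSet {w : Ed → ℝ | Fast μ (pw w) s m g x} := by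
  rw [fast_set]
  refine Finset.measurableSet_biUnion _ fun y _ => ?_
  exact measurableSet_lt (measurable_TB _ _ _) measurable_const

lemma fast_dep {s m : ℕ} {g : ℝ} {x : ℤ × ℤ} {w w' : Ed → ℝ}
    (h : ∀ e ∈ be (66 * (m + 4 * s)) x, w e = w' e) :
    Fast μ (pw w) s m g x ↔ Fast μ (pw w') s m g x := by
  unfold Fast
  refine exists_congr fun y => and_congr_right fun _ => ?_
  rw [TB_dep h]

lemma fast_le {s m : ℕ} (hs : 1 ≤ s) {g p0 : ℝ} {R : ℕ} {x : ℤ × ℤ}
    (hx : x ∈ (ball R 0).image (rd s))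
    (hp : ∀ z : ℤ × ℤ, m ≤ dd 0 z + 4 * s → dd 0 z ≤ m + 4 * s →
      nu.real {w | TT (pw w) 0 z < mz μ z - g} ≤ p0) (hp0 : 0 ≤ p0) :
    nu.real {w | Fast μ (pw w) s m g x} ≤ 18 * (2 * ((m / s : ℕ) : ℝ) + 9) * p0 := by
  rw [fast_set]
  calc _ ≤ ∑ y ∈ nb s m x, nu.real {w | TB (pw w) (66 * (m + 4 * s)) x y < mz μ (y - x) - g} :=
        measureReal_biUnion_finset_le _ _
    _ ≤ ∑ _y ∈ nb s m x, p0 := by
        refine Finset.sum_le_sum fun y hy => ?_
        have hy' := hy
        rw [nb, Finset.mem_filter] at hy'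
        have hd : dd 0 (y - x) = dd x y := by
          simp only [dd, Prod.fst_sub, Prod.snd_sub, Prod.fst_zero, Prod.snd_zero]; omega
        refine le_trans ?_ (hp (y - x) (by rw [hd]; exact hy'.2.1) (by rw [hd]; exact hy'.2.2))
        have e1 := nu_TT_sh x y (measurableSet_Iio (a := mz μ (y - x) - g))
        have e2 : {w : Ed → ℝ | TT (pw w) 0 (y - x) < mz μ (y - x) - g} =
          {w | TT (pw w) 0 (y - x) ∈ Set.Iio (mz μ (y - x) - g)} := rfl
        rw [e2, ← e1]
        refine measureReal_mono ?_ (measure_ne_top _ _)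
        intro w hw
        exact lt_of_le_of_lt (TT_le_TB (pw_nonneg w) (by omega)) hw
    _ = (nb s m x).card * p0 := by rw [Finset.sum_const, nsmul_eq_mul]
    _ ≤ _ := by
        refine mul_le_mul_of_nonneg_right ?_ hp0
        have := count_nb hs m hx
        exact_mod_cast this

/-- many fast pieces far from each other are unlikely -/
lemma indep_le (Q : Finset (ℤ × ℤ)) (s m r : ℕ) (g p : ℝ)
    (hp : ∀ x ∈ Q, nu.real {w | Fast μ (pw w) s m g x} ≤ p) (hp0 : 0 ≤ p) :
    nu.real {w | ∃ I : Finset (ℤ × ℤ), I ⊆ Q ∧ I.card = r ∧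
      (∀ x ∈ I, ∀ y ∈ I, x ≠ y → 2 * (66 * (m + 4 * s)) < dd x y) ∧
      ∀ x ∈ I, Fast μ (pw w) s m g x} ≤ (Q.card * p) ^ r := by
  classical
  obtain ⟨F, hF⟩ : ∃ F : Finset (ℤ × ℤ) → Prop,
      F = fun I => ∀ x ∈ I, ∀ y ∈ I, x ≠ y → 2 * (66 * (m + 4 * s)) < dd x y := ⟨_, rfl⟩
  set P := (Q.powersetCard r).filter F with hP
  have hsub : {w | ∃ I : Finset (ℤ × ℤ), I ⊆ Q ∧ I.card = r ∧
      (∀ x ∈ I, ∀ y ∈ I, x ≠ y → 2 * (66 * (m + 4 * s)) < dd x y) ∧
      ∀ x ∈ I, Fast μ (pw w) s m g x} ⊆ ⋃ I ∈ P, {w | ∀ x ∈ I, Fast μ (pw w) s m g x} := by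
    rintro w ⟨I, h1, h2, h3, h4⟩
    simp only [Set.mem_iUnion, Set.mem_setOf_eq, exists_prop]
    refine ⟨I, ?_, h4⟩
    rw [hP, Finset.mem_filter, Finset.mem_powersetCard, hF]
    exact ⟨⟨h1, h2⟩, h3⟩
  refine (measureReal_mono hsub (measure_ne_top _ _)).trans
    ((measureReal_biUnion_finset_le _ _).trans ?_)
  have key : ∀ I ∈ P, nu.real {w | ∀ x ∈ I, Fast μ (pw w) s m g x} ≤ p ^ r := by
    intro I hI
    rw [hP, Finset.mem_filter, Finset.mem_powersetCard, hF] at hI
    obtain ⟨⟨h1, h2⟩, h3⟩ := hI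
    have e1 : nu.real {w | ∀ x ∈ I, Fast μ (pw w) s m g x} =
        ∫ w, ∏ x ∈ I, Set.indicator {w : Ed → ℝ | Fast μ (pw w) s m g x} (1 : (Ed → ℝ) → ℝ) w ∂nu := by
      have hms : MeasurableSet {w : Ed → ℝ | ∀ x ∈ I, Fast μ (pw w) s m g x} := by
        have : {w : Ed → ℝ | ∀ x ∈ I, Fast μ (pw w) s m g x} =
            ⋂ x ∈ I, {w : Ed → ℝ | Fast μ (pw w) s m g x} := by
          ext w; simp
        rw [this]
        exact Finset.measurableSet_biInter _ fun x _ => measurable_fast s m g x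
      rw [← integral_indicator_one hms]
      refine integral_congr_ae (Eventually.of_forall fun w => ?_)
      beta_reduce
      by_cases hw : ∀ x ∈ I, Fast μ (pw w) s m g x
      · rw [Set.indicator_of_mem (show w ∈ {w : Ed → ℝ | ∀ x ∈ I, Fast μ (pw w) s m g x} from hw)]
        rw [Finset.prod_eq_one]
        · rfl
        · intro x hx
          rw [Set.indicator_of_mem (show w ∈ {w : Ed → ℝ | Fast μ (pw w) s m g x} from hw x hx)]
          rfl
      · rw [Set.indicator_of_notMem (show w ∉ {w : Ed → ℝ | ∀ x ∈ I, Fast μ (pw w) s m g x} from hw)]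
        push Not at hw
        obtain ⟨x, hx, hx'⟩ := hw
        symm
        refine Finset.prod_eq_zero hx ?_
        rw [Set.indicator_of_notMem (show w ∉ {w : Ed → ℝ | Fast μ (pw w) s m g x} from hx')]
    rw [e1, integral_prod_disj I (fun x => be (66 * (m + 4 * s)) x)
      (fun x => Set.indicator {w : Ed → ℝ | Fast μ (pw w) s m g x} (1 : (Ed → ℝ) → ℝ))]
    · calc _ ≤ ∏ _x ∈ I, p := by
            refine Finset.prod_le_prod (fun x _ => integral_nonneg fun w => ?_) fun x hx => ?_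
            · exact Set.indicator_nonneg (fun _ _ => zero_le_one) w
            · rw [integral_indicator_one (measurable_fast s m g x)]
              exact hp x (h1 hx)
        _ = p ^ r := by rw [Finset.prod_const, h2]
    · intro x
      exact measurable_one.indicator (measurable_fast s m g x)
    · intro x w w' hw
      have := fast_dep (μ := μ) (g := g) hw
      by_cases h5 : Fast μ (pw w) s m g x
      · rw [Set.indicator_of_mem (show w ∈ {w : Ed → ℝ | Fast μ (pw w) s m g x} from h5),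
          Set.indicator_of_mem (show w' ∈ {w : Ed → ℝ | Fast μ (pw w) s m g x} from this.1 h5)]
        rfl
      · rw [Set.indicator_of_notMem (show w ∉ {w : Ed → ℝ | Fast μ (pw w) s m g x} from h5),
          Set.indicator_of_notMem (show w' ∉ {w : Ed → ℝ | Fast μ (pw w) s m g x} from
            fun h6 => h5 (this.2 h6))]
    · intro x hx y hy hxy
      exact be_disj (h3 x hx y hy hxy)
  calc _ ≤ ∑ _I ∈ P, p ^ r := Finset.sum_le_sum key
    _ = P.card * p ^ r := by rw [Finset.sum_const, nsmul_eq_mul]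
    _ ≤ (Q.card : ℝ) ^ r * p ^ r := by
        refine mul_le_mul_of_nonneg_right ?_ (by positivity)
        have e1 : P.card ≤ Q.card ^ r := by
          refine (Finset.card_filter_le _ _).trans ?_
          rw [Finset.card_powersetCard]
          exact Nat.choose_le_pow _ _
        exact_mod_cast e1
    _ = _ := by rw [mul_pow]

end Q69.FL
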