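import Pool.Agent.Q69.FL.B

/-!
# First passage percolation, lower tail: the bound at one scale
-/

set_option autoImplicit false

open MeasureTheory ProbabilityTheory Finset Filter
open scoped Topology

namespace Q69.FL

open Q70.Fp

variable {μ : ℝ × ℝ → ℝ}

lemma union7 (E : Set (Ed → ℝ)) (A1 A2 A3 A4 A5 A6 A7 : Set (Ed → ℝ))
    (h : ∀ w ∈ E, w ∉ A1 → w ∉ A2 → w ∉ A3 → w ∉ A4 → w ∉ A5 → w ∉ A6 → w ∈ A7) :
    nu.real E ≤ nu.real A1 + nu.real A2 + nu.real A3 + nu.real A4 + nu.real A5 + nu.real A6 +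
      nu.real A7 := by
  have hsub : E ⊆ A1 ∪ A2 ∪ A3 ∪ A4 ∪ A5 ∪ A6 ∪ A7 := by
    intro w hw
    by_contra hcon
    simp only [Set.mem_union, not_or] at hcon
    obtain ⟨⟨⟨⟨⟨⟨h1, h2⟩, h3⟩, h4⟩, h5⟩, h6⟩, h7⟩ := hcon
    exact h7 (h w hw h1 h2 h3 h4 h5 h6)
  have e0 := measureReal_mono hsub (measure_ne_top nu _)
  have e1 := measureReal_union_le (μ := nu) (A1 ∪ A2 ∪ A3 ∪ A4 ∪ A5 ∪ A6) A7
  have e2 := measureReal_union_le (μ := nu) (A1 ∪ A2 ∪ A3 ∪ A4 ∪ A5) A6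
  have e3 := measureReal_union_le (μ := nu) (A1 ∪ A2 ∪ A3 ∪ A4) A5
  have e4 := measureReal_union_le (μ := nu) (A1 ∪ A2 ∪ A3) A4
  have e5 := measureReal_union_le (μ := nu) (A1 ∪ A2) A3
  have e6 := measureReal_union_le (μ := nu) A1 A2
  linarith

lemma union_pairs (Q : Finset (ℤ × ℤ)) (Y : ℤ × ℤ → Finset (ℤ × ℤ)) (T : (ℤ × ℤ) → (ℤ × ℤ) → Set (Ed → ℝ))
    {c : ℕ} {p : ℝ} (hp0 : 0 ≤ p) (hc : ∀ x ∈ Q, (Y x).card ≤ c)
    (hp : ∀ x ∈ Q, ∀ y ∈ Y x, nu.real (T x y) ≤ p) :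
    nu.real (⋃ x ∈ Q, ⋃ y ∈ Y x, T x y) ≤ Q.card * (c * p) := by
  calc _ ≤ ∑ x ∈ Q, nu.real (⋃ y ∈ Y x, T x y) := measureReal_biUnion_finset_le _ _
    _ ≤ ∑ _x ∈ Q, (c * p) := by
        refine Finset.sum_le_sum fun x hx => ?_
        calc _ ≤ ∑ y ∈ Y x, nu.real (T x y) := measureReal_biUnion_finset_le _ _
          _ ≤ ∑ _y ∈ Y x, p := Finset.sum_le_sum fun y hy => hp x hx y hy
          _ = (Y x).card * p := by rw [Finset.sum_const, nsmul_eq_mul]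
          _ ≤ _ := mul_le_mul_of_nonneg_right (by exact_mod_cast hc x hx) hp0
    _ = _ := by rw [Finset.sum_const, nsmul_eq_mul]

lemma half_mono {a b : ℕ} (h : a ≤ b) : ((1:ℝ) / 2) ^ b ≤ (1 / 2) ^ a :=
  pow_le_pow_of_le_one (by norm_num) (by norm_num) h

/-- the lower tail at one scale -/
lemma prob_step (h : Shape μ) {v : ℤ × ℤ} {n m₁ s r : ℕ} (hn : dd 0 v = n) (hm1 : 1 ≤ m₁)
    (hs1 : 1 ≤ s) (hsm : s ≤ m₁) (hmn : m₁ ≤ n) {S D g p0 d0 : ℝ} (hS1 : 1 ≤ S) (hD : 0 ≤ D)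
    (hg : 0 ≤ g) (hp0 : 0 ≤ p0) (hd0 : 0 ≤ d0)
    (h5 : ∀ z : ℤ × ℤ, dd 0 z ≤ 66 * m₁ → nu.real {w | TT (pw w) 0 z < mz μ z - D} ≤ d0)
    (hp : ∀ z : ℤ × ℤ, 66 * m₁ ≤ dd 0 z + 4 * s → dd 0 z ≤ 66 * m₁ + 4 * s →
      nu.real {w | TT (pw w) 0 z < mz μ z - (g - 24 * s)} ≤ p0)
    (hr : 43825 * (r:ℝ) * D + (n:ℝ) / m₁ * g + D + 1 ≤ S) :
    nu.real {w | TT (pw w) 0 v < mz μ v - S} ≤ (133 * (n:ℝ)) ^ 4 * (7 * (1 / 2) ^ s + d0) +
      ((((ball (66 * n) 0).image (rd s)).card : ℝ) *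
        (18 * (2 * ((66 * m₁ / s : ℕ) : ℝ) + 9) * p0)) ^ r := by
  classical
  set Bl := ball (66 * n) 0 with hBl
  set Q := Bl.image (rd s) with hQ
  have hn1 : 1 ≤ n := by omega
  have hn1' : (1:ℝ) ≤ n := by exact_mod_cast hn1
  have hcard : (Bl.card : ℝ) ≤ (133 * n) ^ 2 := by
    have e1 : Bl.card ≤ (133 * n) ^ 2 := by
      refine (card_ball (66 * n)).trans (Nat.pow_le_pow_left (by omega) 2)
    exact_mod_cast e1
  have hQB : (Q.card : ℝ) ≤ (133 * n) ^ 2 := le_trans (by exact_mod_cast Finset.card_image_le) hcard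
  have hN2 : (1:ℝ) ≤ (133 * (n:ℝ)) ^ 2 := one_le_pow₀ (by linarith)
  have hN4 : (133 * (n:ℝ)) ^ 4 = (133 * n) ^ 2 * (133 * n) ^ 2 := by ring
  have hN24 : (133 * (n:ℝ)) ^ 2 ≤ (133 * n) ^ 4 := by
    rw [hN4]; exact le_mul_of_one_le_left (by positivity) hN2
  have hN14 : (1:ℝ) ≤ (133 * (n:ℝ)) ^ 4 := hN2.trans hN24
  -- the exceptional sets
  let A1 : Set (Ed → ℝ) := {w | Bad (pw w) 0 (66 * n + 1) (3 * (n:ℝ))}
  let A2 : Set (Ed → ℝ) := ⋃ x ∈ Bl, ⋃ y ∈ Bl.filter (fun y => dd x y = 66 * m₁),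
    {w | TT (pw w) x y < 3 * (m₁:ℝ)}
  let A3 : Set (Ed → ℝ) := ⋃ x ∈ Bl, ⋃ y ∈ Bl.filter (fun y => dd x y ≤ 664 * (66 * m₁)),
    {w | 3 * ((664 * (66 * m₁) : ℕ) : ℝ) ≤ TT (pw w) x y}
  let A4 : Set (Ed → ℝ) := ⋃ x ∈ Bl, ⋃ y ∈ ({rd s x} : Finset (ℤ × ℤ)),
    ({w | 3 * ((2 * s : ℕ) : ℝ) ≤ TT (pw w) x y} ∪ {w | 3 * ((2 * s : ℕ) : ℝ) ≤ TT (pw w) y x})
  let A5 : Set (Ed → ℝ) := ⋃ x ∈ Q, ⋃ y ∈ nb s (66 * m₁) x,
    {w | TT (pw w) x y < TB (pw w) (66 * (66 * m₁ + 4 * s)) x y}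
  let A6 : Set (Ed → ℝ) := ⋃ x ∈ Bl, ⋃ y ∈ Bl.filter (fun y => dd x y ≤ 66 * m₁),
    {w | TT (pw w) x y < mz μ (y - x) - D}
  let A7 : Set (Ed → ℝ) := {w | ∃ I : Finset (ℤ × ℤ), I ⊆ Q ∧ I.card = r ∧
      (∀ x ∈ I, ∀ y ∈ I, x ≠ y → 2 * (66 * (66 * m₁ + 4 * s)) < dd x y) ∧
      ∀ x ∈ I, Fast μ (pw w) s (66 * m₁) (g - 24 * s) x}
  have key := union7 {w | TT (pw w) 0 v < mz μ v - S} A1 A2 A3 A4 A5 A6 A7 (by
    intro w hw n1 n2 n3 n4 n5 n6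
    simp only [A2, A3, A4, A5, A6, Set.mem_iUnion, Set.mem_setOf_eq, exists_prop, not_exists,
      Finset.mem_filter, not_and, not_lt, and_imp, not_le, Finset.mem_singleton, Set.mem_union,
      not_or] at n2 n3 n4 n5 n6
    refine far_fast h (pw_nonneg w) hn hm1 hs1 (by omega) hS1 hD hg hw n1 n2 n3 ?_ n5 ?_ hr
    · intro x hx
      have := n4 x hx (rd s x) rfl
      push_cast at this
      constructor <;> linarith [this.1, this.2]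
    · exact n6)
  have b1 : nu.real A1 ≤ (133 * (n:ℝ)) ^ 4 * (1 / 2) ^ s := by
    calc _ ≤ ((1:ℝ) / 2) ^ n := bad_le 0 (by omega)
      _ ≤ (1 / 2) ^ s := half_mono (by omega)
      _ ≤ _ := le_mul_of_one_le_left (by positivity) hN14
  have hcf : ∀ P : (ℤ × ℤ) → Prop, ∀ [DecidablePred P], (Bl.filter P).card ≤ Bl.card :=
    fun P _ => Finset.card_filter_le _ _
  have hBB : (Bl.card : ℝ) * Bl.card ≤ (133 * (n:ℝ)) ^ 4 := by
    rw [hN4]; exact mul_le_mul hcard hcard (by positivity) (by positivity)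
  have pairs : ∀ (P : (ℤ × ℤ) → (ℤ × ℤ) → Prop) [∀ x, DecidablePred (P x)]
      (T : (ℤ × ℤ) → (ℤ × ℤ) → Set (Ed → ℝ)) (p : ℝ), 0 ≤ p → (∀ x y, P x y → nu.real (T x y) ≤ p) →
      nu.real (⋃ x ∈ Bl, ⋃ y ∈ Bl.filter (P x), T x y) ≤ (133 * (n:ℝ)) ^ 4 * p := by
    intro P _ T p hp' hT
    refine (union_pairs Bl _ T hp' (fun x _ => hcf _) fun x _ y hy => hT x y
      (Finset.mem_filter.1 hy).2).trans ?_
    rw [← mul_assoc]
    exact mul_le_mul_of_nonneg_right hBB hp'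
  have b2 : nu.real A2 ≤ (133 * (n:ℝ)) ^ 4 * (1 / 2) ^ s :=
    pairs (fun x y => dd x y = 66 * m₁) (fun x y => {w | TT (pw w) x y < 3 * (m₁:ℝ)}) _ (by positivity)
      fun x y hxy => (low_le hxy.ge).trans (half_mono hsm)
  have b3 : nu.real A3 ≤ (133 * (n:ℝ)) ^ 4 * (1 / 2) ^ s :=
    pairs (fun x y => dd x y ≤ 664 * (66 * m₁))
      (fun x y => {w | 3 * ((664 * (66 * m₁) : ℕ) : ℝ) ≤ TT (pw w) x y}) _ (by positivity)
      fun x y hxy => (straight hxy).trans (half_mono (by omega))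
  have b6 : nu.real A6 ≤ (133 * (n:ℝ)) ^ 4 * d0 :=
    pairs (fun x y => dd x y ≤ 66 * m₁) (fun x y => {w | TT (pw w) x y < mz μ (y - x) - D}) _ hd0
      fun x y hxy => by
        have hd : dd 0 (y - x) = dd x y := by
          simp only [dd, Prod.fst_sub, Prod.snd_sub, Prod.fst_zero, Prod.snd_zero]; omega
        have e1 := nu_TT_sh x y (measurableSet_Iio (a := mz μ (y - x) - D))
        have e2 := h5 (y - x) (by rw [hd]; exact hxy)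
        have e3 : {w : Ed → ℝ | TT (pw w) x y < mz μ (y - x) - D} =
          {w | TT (pw w) x y ∈ Set.Iio (mz μ (y - x) - D)} := rfl
        rw [e3, e1]
        exact e2
  have b4 : nu.real A4 ≤ (133 * (n:ℝ)) ^ 4 * (2 * (1 / 2) ^ s) := by
    refine (union_pairs Bl (fun x => {rd s x}) _ (c := 1) (p := 2 * (1 / 2) ^ s) (by positivity)
      (fun x _ => by simp) ?_).trans ?_
    · intro x _ y hy
      rw [Finset.mem_singleton] at hy
      subst hy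
      have e1 := dd_rd hs1 x
      have e2 : dd (rd s x) x ≤ 2 * s := by rw [dd_comm]; exact e1
      refine (measureReal_union_le _ _).trans ?_
      have e3 := straight e1
      have e4 := straight e2
      have e5 : ((1:ℝ) / 2) ^ (2 * s) ≤ (1 / 2) ^ s := half_mono (by omega)
      linarith
    · rw [Nat.cast_one, one_mul]
      exact mul_le_mul_of_nonneg_right (hcard.trans hN24) (by positivity)
  have b5 : nu.real A5 ≤ (133 * (n:ℝ)) ^ 4 * (2 * (1 / 2) ^ s) := by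
    refine (union_pairs Q (fun x => nb s (66 * m₁) x) _ (c := (133 * n) ^ 2) (p := 2 * (1 / 2) ^ s)
      (by positivity) ?_ ?_).trans ?_
    · intro x hx
      refine (count_nb hs1 (66 * m₁) hx).trans ?_
      have e1 : 66 * m₁ / s ≤ 66 * n := (Nat.div_le_self _ _).trans (by omega)
      nlinarith
    · intro x hx y hy
      have hy' := hy
      rw [nb, Finset.mem_filter] at hy'
      refine (local_le hy'.2.2).trans ?_
      have e5 : ((1:ℝ) / 2) ^ (66 * m₁ + 4 * s) ≤ (1 / 2) ^ s := half_mono (by omega)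
      linarith
    · rw [← mul_assoc]
      refine mul_le_mul_of_nonneg_right ?_ (by positivity)
      rw [hN4]
      push_cast
      exact mul_le_mul_of_nonneg_right hQB (by positivity)
  have b7 : nu.real A7 ≤ ((Q.card : ℝ) * (18 * (2 * ((66 * m₁ / s : ℕ) : ℝ) + 9) * p0)) ^ r :=
    indep_le Q s (66 * m₁) r (g - 24 * s) _ (fun x hx => fast_le hs1 hx hp hp0) (by positivity)
  linarith

end Q69.FL
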