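import Pool.Agent.Q69.FL.C

/-!
# First passage percolation, lower tail: iteration over the scales
-/

set_option autoImplicit false

open MeasureTheory ProbabilityTheory Finset Filter
open scoped Topology

namespace Q69.FL

open Q70.Fp

/-- polynomial bound for the lower tail at the exponent `a` -/
def Ll (μ : ℝ × ℝ → ℝ) (a q : ℝ) : Prop := ∃ C : ℝ, 0 < C ∧ ∀ v : ℤ × ℤ, v ≠ 0 →
  nu.real {w | TT (pw w) 0 v < mz μ v - (dd 0 v : ℝ) ^ a} ≤ C * (dd 0 v : ℝ) ^ (-q)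

/-- stretched exponential bound for the lower tail at the exponent `a` -/
def Se (μ : ℝ × ℝ → ℝ) (a : ℝ) : Prop := ∃ κ c C : ℝ, 0 < κ ∧ 0 < c ∧ 0 < C ∧ ∀ v : ℤ × ℤ, v ≠ 0 →
  nu.real {w | TT (pw w) 0 v < mz μ v - (dd 0 v : ℝ) ^ a} ≤ C * Real.exp (-(c * (dd 0 v : ℝ) ^ κ))

variable {μ : ℝ × ℝ → ℝ}

lemma of_ev_exp {P : ℤ × ℤ → ℝ} (hP : ∀ v, P v ≤ 1) {κ C : ℝ} (hκ : 0 < κ) (hC : 0 < C)
    (h : ∀ᶠ n : ℕ in atTop, ∀ z, dd 0 z = n → P z ≤ C * Real.exp (-((n:ℝ) ^ κ))) :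
    ∃ C' : ℝ, 0 < C' ∧ ∀ v, P v ≤ C' * Real.exp (-((dd 0 v : ℝ) ^ κ)) := by
  obtain ⟨n0, h0⟩ := eventually_atTop.1 h
  refine ⟨C + Real.exp ((n0:ℝ) ^ κ), by positivity, fun v => ?_⟩
  have h2 : 0 < Real.exp (-((dd 0 v : ℝ) ^ κ)) := Real.exp_pos _
  rw [add_mul]
  by_cases h3 : n0 ≤ dd 0 v
  · refine (h0 _ h3 v rfl).trans ?_
    have : 0 ≤ Real.exp ((n0:ℝ) ^ κ) * Real.exp (-((dd 0 v : ℝ) ^ κ)) := by positivity
    linarith
  · refine (hP v).trans ?_
    have h4 : (dd 0 v : ℝ) ^ κ ≤ (n0:ℝ) ^ κ :=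
      Real.rpow_le_rpow (by positivity) (by exact_mod_cast (by omega : dd 0 v ≤ n0)) hκ.le
    have h5 : 1 ≤ Real.exp ((n0:ℝ) ^ κ) * Real.exp (-((dd 0 v : ℝ) ^ κ)) := by
      rw [← Real.exp_add]
      exact Real.one_le_exp (by linarith)
    have h6 : 0 ≤ C * Real.exp (-((dd 0 v : ℝ) ^ κ)) := by positivity
    linarith

lemma absorb (K : ℝ) {c κ κ' : ℝ} (hc : 0 < c) (hκ' : 0 < κ') (h : κ' < κ) :
    ∀ᶠ n : ℕ in atTop, K * (n:ℝ) ^ 4 * Real.exp (-(c * (n:ℝ) ^ κ)) ≤ Real.exp (-((n:ℝ) ^ κ')) := by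
  have hκ : 0 < κ := hκ'.trans h
  have h1 : Tendsto (fun n : ℕ => ((n:ℝ) ^ κ) ^ (4 / κ) * Real.exp (-(c / 2) * (n:ℝ) ^ κ)) atTop (𝓝 0) :=
    (tendsto_rpow_mul_exp_neg_mul_atTop_nhds_zero (4 / κ) (c / 2) (by positivity)).comp
      ((tendsto_rpow_atTop hκ).comp tendsto_natCast_atTop_atTop)
  have h2 := pow_small (K := 1 / (2 * c)) h
  filter_upwards [h1.eventually_lt_const (show (0:ℝ) < 1 / (|K| + 1) by positivity), h2,
    eventually_ge_atTop 1] with n e1 e2 hn1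
  have hn0 : (0:ℝ) < n := by exact_mod_cast hn1
  have e3 : ((n:ℝ) ^ κ) ^ (4 / κ) = (n:ℝ) ^ 4 := by
    rw [← Real.rpow_mul hn0.le, show κ * (4 / κ) = ((4:ℕ):ℝ) by field_simp; norm_num, Real.rpow_natCast]
  rw [e3] at e1
  have e4 : (n:ℝ) ^ κ' ≤ c / 2 * (n:ℝ) ^ κ := by
    rw [div_mul_eq_mul_div, one_mul, div_le_iff₀ (by positivity)] at e2
    linarith
  have e5 : Real.exp (-(c * (n:ℝ) ^ κ)) = Real.exp (-(c / 2) * (n:ℝ) ^ κ) * Real.exp (-(c / 2 * (n:ℝ) ^ κ)) := by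
    rw [← Real.exp_add]; congr 1; ring
  have e6 : Real.exp (-(c / 2 * (n:ℝ) ^ κ)) ≤ Real.exp (-((n:ℝ) ^ κ')) := Real.exp_le_exp.2 (by linarith)
  have e7 : K * ((n:ℝ) ^ 4 * Real.exp (-(c / 2) * (n:ℝ) ^ κ)) ≤ 1 := by
    have f1 : 0 ≤ (n:ℝ) ^ 4 * Real.exp (-(c / 2) * (n:ℝ) ^ κ) := by positivity
    have f2 : K * ((n:ℝ) ^ 4 * Real.exp (-(c / 2) * (n:ℝ) ^ κ)) ≤
        (|K| + 1) * ((n:ℝ) ^ 4 * Real.exp (-(c / 2) * (n:ℝ) ^ κ)) :=
      mul_le_mul_of_nonneg_right (by linarith [le_abs_self K]) f1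
    have f3 : (|K| + 1) * ((n:ℝ) ^ 4 * Real.exp (-(c / 2) * (n:ℝ) ^ κ)) ≤ (|K| + 1) * (1 / (|K| + 1)) :=
      mul_le_mul_of_nonneg_left e1.le (by positivity)
    have f4 : (|K| + 1) * (1 / (|K| + 1)) = 1 := by
      have : |K| + 1 ≠ 0 := by positivity
      field_simp
    linarith
  calc K * (n:ℝ) ^ 4 * Real.exp (-(c * (n:ℝ) ^ κ))
      = (K * ((n:ℝ) ^ 4 * Real.exp (-(c / 2) * (n:ℝ) ^ κ))) * Real.exp (-(c / 2 * (n:ℝ) ^ κ)) := by
        rw [e5]; ring
    _ ≤ 1 * Real.exp (-(c / 2 * (n:ℝ) ^ κ)) := mul_le_mul_of_nonneg_right e7 (Real.exp_pos _).le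
    _ ≤ _ := by rw [one_mul]; exact e6

lemma unifL (h : Shape μ) {a : ℝ} (ha : 0 < a) (hS : Se μ a) :
    ∃ κ c C : ℝ, 0 < κ ∧ 0 < c ∧ 0 < C ∧ ∀ m : ℕ, 1 ≤ m → ∀ z, dd 0 z ≤ m →
      nu.real {w | TT (pw w) 0 z < mz μ z - (m:ℝ) ^ a} ≤ C * Real.exp (-(c * (m:ℝ) ^ κ)) := by
  obtain ⟨κ, c, C, hκ, hc, hC, hS⟩ := hS
  refine ⟨a * κ, c / 3 ^ κ, C, by positivity, by positivity, hC, fun m hm z hz => ?_⟩
  have hm0 : (0:ℝ) < m := by exact_mod_cast hm
  by_cases hcase : 3 * (dd 0 z : ℝ) < (m:ℝ) ^ a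
  · have : {w : Ed → ℝ | TT (pw w) 0 z < mz μ z - (m:ℝ) ^ a} = ∅ := by
      ext w
      simp only [Set.mem_setOf_eq, Set.mem_empty_iff_false, iff_false, not_lt]
      have e1 := TT_nonneg (pw_nonneg w) 0 z
      have e2 := mz_up h z
      linarith
    rw [this, measureReal_empty]
    positivity
  · push Not at hcase
    have hz0 : z ≠ 0 := by
      rintro rfl
      rw [dd_self] at hcase
      have : (0:ℝ) < (m:ℝ) ^ a := by positivity
      simp only [Nat.cast_zero, mul_zero] at hcase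
      linarith
    have h3 : nu.real {w | TT (pw w) 0 z < mz μ z - (m:ℝ) ^ a} ≤
        nu.real {w | TT (pw w) 0 z < mz μ z - (dd 0 z : ℝ) ^ a} := by
      refine measureReal_mono ?_ (measure_ne_top _ _)
      intro w hw
      simp only [Set.mem_setOf_eq] at hw ⊢
      have : (dd 0 z : ℝ) ^ a ≤ (m:ℝ) ^ a :=
        Real.rpow_le_rpow (by positivity) (by exact_mod_cast hz) ha.le
      linarith
    refine h3.trans ((hS z hz0).trans ?_)
    refine mul_le_mul_of_nonneg_left (Real.exp_le_exp.2 (neg_le_neg ?_)) hC.le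
    have e1 : ((m:ℝ) ^ a / 3) ^ κ ≤ (dd 0 z : ℝ) ^ κ :=
      Real.rpow_le_rpow (by positivity) (by linarith) hκ.le
    have e2 : c / 3 ^ κ * (m:ℝ) ^ (a * κ) = c * ((m:ℝ) ^ a / 3) ^ κ := by
      rw [Real.div_rpow (by positivity) (by norm_num), ← Real.rpow_mul hm0.le]
      ring
    rw [e2]
    exact mul_le_mul_of_nonneg_left e1 hc.le

lemma Se_mono {a a' : ℝ} (haa : a ≤ a') (hS : Se μ a) : Se μ a' := by
  obtain ⟨κ, c, C, hκ, hc, hC, h1⟩ := hS
  refine ⟨κ, c, C, hκ, hc, hC, fun v hv => (measureReal_mono ?_ (measure_ne_top _ _)).trans (h1 v hv)⟩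
  intro w hw
  simp only [Set.mem_setOf_eq] at hw ⊢
  have : (dd 0 v : ℝ) ^ a ≤ (dd 0 v : ℝ) ^ a' :=
    Real.rpow_le_rpow_of_exponent_le (by exact_mod_cast dd_pos hv) haa
  linarith

lemma Ll_mono {a a' q : ℝ} (haa : a ≤ a') (hL : Ll μ a q) : Ll μ a' q := by
  obtain ⟨C, hC, h1⟩ := hL
  refine ⟨C, hC, fun v hv => (measureReal_mono ?_ (measure_ne_top _ _)).trans (h1 v hv)⟩
  intro w hw
  simp only [Set.mem_setOf_eq] at hw ⊢
  have : (dd 0 v : ℝ) ^ a ≤ (dd 0 v : ℝ) ^ a' :=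
    Real.rpow_le_rpow_of_exponent_le (by exact_mod_cast dd_pos hv) haa
  linarith

lemma Se_two (h : Shape μ) : Se μ 2 := by
  obtain ⟨C, hC, h1⟩ := of_ev_exp (P := fun v => nu.real {w | TT (pw w) 0 v < mz μ v - (dd 0 v : ℝ) ^ (2:ℝ)})
    (fun v => measureReal_le_one) (κ := 1) (C := 1) one_pos one_pos (by
      filter_upwards [eventually_ge_atTop 3] with n hn z hz
      have : {w : Ed → ℝ | TT (pw w) 0 z < mz μ z - (dd 0 z : ℝ) ^ (2:ℝ)} = ∅ := by
        ext w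
        simp only [Set.mem_setOf_eq, Set.mem_empty_iff_false, iff_false, not_lt]
        have e1 := TT_nonneg (pw_nonneg w) 0 z
        have e2 := mz_up h z
        rw [hz] at e2 ⊢
        have e3 : (3:ℝ) ≤ n := by exact_mod_cast hn
        rw [Real.rpow_two]
        nlinarith
      rw [this, measureReal_empty]
      positivity)
  exact ⟨1, 1, C, one_pos, one_pos, hC, fun v _ => by simpa using h1 v⟩

lemma half_exp (k : ℕ) : ((1:ℝ) / 2) ^ k = Real.exp (-(Real.log 2 * k)) := by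
  rw [show -(Real.log 2 * (k:ℝ)) = (k:ℝ) * (-Real.log 2) by ring, Real.exp_nat_mul, Real.exp_neg,
    Real.exp_log two_pos]
  norm_num

/-- the step from one scale to a larger one -/
lemma stepL (h : Shape μ) {b0 b1 q A a η : ℝ} (hb0 : 0 < b0) (hb01 : b0 < b1) (hb1 : b1 ≤ 1)
    (hq : 0 < q) (hη0 : 0 < η) (hη1 : η < 1) (hA : 0 < A) (h1 : η + (1 - η) * b1 < a)
    (h2 : (1 - η) * A < a) (h3 : 2 + (1 - η) * (1 - 3 * b1 - q) < 0) (hL : Ll μ b0 q)
    (hS : Se μ A) : Se μ a := by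
  obtain ⟨κ5, c5, C5, hκ5, hc5, hC5, hU⟩ := unifL h hA hS
  obtain ⟨C0, hC0, hL⟩ := hL
  have hb10 : 0 < b1 := hb0.trans hb01
  set τ : ℝ := 1 - η with hτ
  have hτ0 : 0 < τ := by rw [hτ]; linarith
  have hτ1 : τ < 1 := by rw [hτ]; linarith
  set ε : ℝ := (a - τ * A) / 2 with hε
  have hε0 : 0 < ε := by rw [hε]; linarith
  have ha0 : 0 < a := lt_trans (by positivity) h2
  set κ' : ℝ := min (min (τ * b1 / 2) (τ * κ5 / 2)) (ε / 2) with hκ'
  have hκ'0 : 0 < κ' := lt_min (lt_min (by positivity) (by positivity)) (by positivity)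
  have hk1 : κ' < τ * b1 := by
    have e1 : κ' ≤ τ * b1 / 2 := (min_le_left _ _).trans (min_le_left _ _)
    have e2 : 0 < τ * b1 := by positivity
    linarith
  have hk2 : κ' < τ * κ5 := by
    have e1 : κ' ≤ τ * κ5 / 2 := (min_le_left _ _).trans (min_le_right _ _)
    have e2 : 0 < τ * κ5 := by positivity
    linarith
  have hk3 : κ' < ε := by
    have e1 : κ' ≤ ε / 2 := min_le_right _ _
    linarith
  have hl2 : 0 < Real.log 2 := Real.log_pos one_lt_two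
  have tt : Tendsto (fun n : ℕ => (n:ℝ) ^ τ) atTop atTop :=
    (tendsto_rpow_atTop hτ0).comp tendsto_natCast_atTop_atTop
  have tb : Tendsto (fun n : ℕ => ((n:ℝ) ^ τ) ^ b1) atTop atTop := (tendsto_rpow_atTop hb10).comp tt
  have te : Tendsto (fun n : ℕ => (n:ℝ) ^ ε) atTop atTop :=
    (tendsto_rpow_atTop hε0).comp tendsto_natCast_atTop_atTop
  have hsm := tt.eventually (rpow_small (K := 2 * 67 ^ b0) hb01)
  have hprod : ∀ᶠ n : ℕ in atTop, 2 * (26402 ^ 2 * (18 * 26409) * C0) *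
      (n:ℝ) ^ (2 + τ * (1 - 3 * b1 - q)) ≤ 1 := by
    have e1 := (tendsto_natCast_atTop_atTop (R := ℝ)).eventually
      (rpow_small (K := 2 * (26402 ^ 2 * (18 * 26409) * C0)) h3)
    filter_upwards [e1] with n e1
    rwa [Real.rpow_zero] at e1
  obtain ⟨C', hC', hfin⟩ := of_ev_exp
    (P := fun v => nu.real {w | TT (pw w) 0 v < mz μ v - (dd 0 v : ℝ) ^ a})
    (fun v => measureReal_le_one) hκ'0 (C := 3) (by norm_num) (by
      filter_upwards [eventually_ge_atTop 1, tt.eventually_ge_atTop 2, tb.eventually_ge_atTop 200,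
        te.eventually_ge_atTop 1, hsm, hprod,
        pow_small (K := 43825 * 66 ^ A) (show ε + τ * A < a by rw [hε]; linarith),
        pow_small (K := 2 * 66 ^ b1) h1, pow_small (K := 66 ^ A) h2,
        pow_small (K := 1) ha0, absorb (133 ^ 4 * 7) (show 0 < Real.log 2 / 200 by positivity) hκ'0 hk1,
        absorb (133 ^ 4 * C5) hc5 hκ'0 hk2, absorb 2 hl2 hκ'0 hk3] with n hn1 u1 u2 u3 u4 u5 u6 u7 u8
        u9 u10 u11 u12 v hv
      have hn1' : (1:ℝ) ≤ n := by exact_mod_cast hn1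
      have hn0 : (0:ℝ) < n := by linarith
      set t : ℝ := (n:ℝ) ^ τ with ht
      have ht0 : 0 < t := by positivity
      have htn : t ≤ n := by
        calc t ≤ (n:ℝ) ^ (1:ℝ) := Real.rpow_le_rpow_of_exponent_le hn1' hτ1.le
          _ = n := Real.rpow_one _
      set σ : ℝ := t ^ b1 with hσ
      have hσ0 : 0 < σ := by positivity
      have ht1 : 1 ≤ t := by linarith
      have hσt : σ ≤ t := by
        calc σ ≤ t ^ (1:ℝ) := Real.rpow_le_rpow_of_exponent_le ht1 hb1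
          _ = t := Real.rpow_one _
      set m₁ : ℕ := ⌊t⌋₊ with hm₁
      set s : ℕ := ⌊σ / 100⌋₊ with hs
      set r : ℕ := ⌊(n:ℝ) ^ ε⌋₊ with hr
      have m_up : (m₁:ℝ) ≤ t := Nat.floor_le ht0.le
      have m_lo' : t < m₁ + 1 := Nat.lt_floor_add_one t
      have m_lo : t / 2 ≤ m₁ := by linarith
      have s_up : (s:ℝ) ≤ σ / 100 := Nat.floor_le (by positivity)
      have s_lo' : σ / 100 < s + 1 := Nat.lt_floor_add_one _
      have s_lo : σ / 200 ≤ s := by linarith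
      have r_up : (r:ℝ) ≤ (n:ℝ) ^ ε := Nat.floor_le (by positivity)
      have r_lo : (n:ℝ) ^ ε < r + 1 := Nat.lt_floor_add_one _
      have hm1 : 1 ≤ m₁ := by
        have : (1:ℝ) ≤ m₁ := by linarith
        exact_mod_cast this
      have hs1 : 1 ≤ s := by
        have : (1:ℝ) ≤ s := by linarith
        exact_mod_cast this
      have hsm' : s ≤ m₁ := by
        have : (s:ℝ) ≤ m₁ := by linarith
        exact_mod_cast this
      have hmn : m₁ ≤ n := by
        have : (m₁:ℝ) ≤ n := by linarith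
        exact_mod_cast this
      have hm0 : (0:ℝ) < m₁ := by exact_mod_cast hm1
      have hs0 : (0:ℝ) < s := by exact_mod_cast hs1
      set D : ℝ := ((66 * m₁ : ℕ) : ℝ) ^ A with hD
      set g : ℝ := ((66 * m₁ : ℕ) : ℝ) ^ b1 with hg
      have hpush : ((66 * m₁ : ℕ) : ℝ) = 66 * m₁ := by push_cast; ring
      have D_up : D ≤ 66 ^ A * (n:ℝ) ^ (τ * A) := by
        rw [hD, hpush, Real.rpow_mul hn0.le, ← Real.mul_rpow (by norm_num) ht0.le]
        exact Real.rpow_le_rpow (by positivity) (by linarith) hA.le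
      have g_up : g ≤ 66 ^ b1 * (n:ℝ) ^ (τ * b1) := by
        rw [hg, hpush, Real.rpow_mul hn0.le, ← Real.mul_rpow (by norm_num) ht0.le]
        exact Real.rpow_le_rpow (by positivity) (by linarith) hb10.le
      have g_lo : σ ≤ g := by
        rw [hg, hpush]
        exact Real.rpow_le_rpow ht0.le (by linarith) hb10.le
      have hD0 : 0 ≤ D := by positivity
      have hg0 : 0 ≤ g := by positivity
      -- the numbers
      have hr' : 43825 * (r:ℝ) * D + (n:ℝ) / m₁ * g + D + 1 ≤ (n:ℝ) ^ a := by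
        have f1 : 43825 * (r:ℝ) * D ≤ 43825 * 66 ^ A * (n:ℝ) ^ (ε + τ * A) := by
          calc 43825 * (r:ℝ) * D ≤ 43825 * (n:ℝ) ^ ε * (66 ^ A * (n:ℝ) ^ (τ * A)) := by gcongr
            _ = 43825 * 66 ^ A * ((n:ℝ) ^ ε * (n:ℝ) ^ (τ * A)) := by ring
            _ = _ := by rw [← Real.rpow_add hn0]
        have f2 : (n:ℝ) / m₁ ≤ 2 * (n:ℝ) ^ η := by
          have e1 : (n:ℝ) = (n:ℝ) ^ η * t := by
            rw [ht, ← Real.rpow_add hn0, hτ, show η + (1 - η) = 1 by ring, Real.rpow_one]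
          rw [div_le_iff₀ hm0]
          calc (n:ℝ) = (n:ℝ) ^ η * t := e1
            _ = 2 * (n:ℝ) ^ η * (t / 2) := by ring
            _ ≤ 2 * (n:ℝ) ^ η * m₁ := by gcongr
        have f3 : (n:ℝ) / m₁ * g ≤ 2 * 66 ^ b1 * (n:ℝ) ^ (η + τ * b1) := by
          calc (n:ℝ) / m₁ * g ≤ (2 * (n:ℝ) ^ η) * (66 ^ b1 * (n:ℝ) ^ (τ * b1)) := by gcongr
            _ = 2 * 66 ^ b1 * ((n:ℝ) ^ η * (n:ℝ) ^ (τ * b1)) := by ring
            _ = _ := by rw [← Real.rpow_add hn0]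
        rw [Real.rpow_zero, mul_one] at u9
        linarith
      have hS1 : (1:ℝ) ≤ (n:ℝ) ^ a := Real.one_le_rpow hn1' ha0.le
      -- fast pieces
      have hp : ∀ z : ℤ × ℤ, 66 * m₁ ≤ dd 0 z + 4 * s → dd 0 z ≤ 66 * m₁ + 4 * s →
          nu.real {w | TT (pw w) 0 z < mz μ z - (g - 24 * s)} ≤ C0 * t ^ (-q) := by
        intro z hz1 hz2
        have f1 : (66:ℝ) * m₁ ≤ dd 0 z + 4 * s := by exact_mod_cast hz1
        have f2 : (dd 0 z : ℝ) ≤ 66 * m₁ + 4 * s := by exact_mod_cast hz2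
        have f3 : t ≤ (dd 0 z : ℝ) := by linarith
        have f4 : (dd 0 z : ℝ) ≤ 67 * t := by linarith
        have hz0 : z ≠ 0 := by
          rintro rfl
          rw [dd_self] at f3
          simp only [Nat.cast_zero] at f3
          linarith
        have f5 : (dd 0 z : ℝ) ^ b0 ≤ g - 24 * s := by
          have g1 : (dd 0 z : ℝ) ^ b0 ≤ 67 ^ b0 * t ^ b0 := by
            rw [← Real.mul_rpow (by norm_num) ht0.le]
            exact Real.rpow_le_rpow (by positivity) f4 hb0.le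
          have g2 : 67 ^ b0 * t ^ b0 ≤ σ / 2 := by linarith
          linarith
        have f6 : (dd 0 z : ℝ) ^ (-q) ≤ t ^ (-q) :=
          Real.rpow_le_rpow_of_nonpos ht0 f3 (by linarith)
        refine (measureReal_mono ?_ (measure_ne_top _ _)).trans ((hL z hz0).trans
          (mul_le_mul_of_nonneg_left f6 hC0.le))
        intro w hw
        simp only [Set.mem_setOf_eq] at hw ⊢
        linarith
      have h5 : ∀ z : ℤ × ℤ, dd 0 z ≤ 66 * m₁ → nu.real {w | TT (pw w) 0 z < mz μ z - D} ≤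
          C5 * Real.exp (-(c5 * ((66 * m₁ : ℕ) : ℝ) ^ κ5)) :=
        fun z hz => hU (66 * m₁) (by omega) z hz
      have main := prob_step h hv hm1 hs1 hsm' hmn hS1 hD0 hg0 (show 0 ≤ C0 * t ^ (-q) by positivity)
        (show 0 ≤ C5 * Real.exp (-(c5 * ((66 * m₁ : ℕ) : ℝ) ^ κ5)) by positivity) h5 hp hr'
      rw [hv]
      refine main.trans ?_
      -- the fast pieces are rare
      have cQ : (((ball (66 * n) 0).image (rd s)).card : ℝ) ≤ (26402 * (n / σ)) ^ 2 := by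
        have e1 : (((ball (66 * n) 0).image (rd s)).card : ℝ) ≤ (2 * ((66 * n / s : ℕ) : ℝ) + 2) ^ 2 := by
          exact_mod_cast count_rd hs1 (66 * n)
        have e2 : ((66 * n / s : ℕ) : ℝ) ≤ 13200 * (n / σ) := by
          refine Nat.cast_div_le.trans ?_
          push_cast
          rw [div_le_iff₀ hs0]
          have : 13200 * (n / σ) * (σ / 200) = 66 * n := by field_simp; norm_num
          calc (66:ℝ) * n = 13200 * (n / σ) * (σ / 200) := this.symm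
            _ ≤ _ := by gcongr
        have e3 : 1 ≤ n / σ := by rw [one_le_div hσ0]; linarith
        refine e1.trans (pow_le_pow_left₀ (by positivity) (by linarith) 2)
      have cN : 18 * (2 * ((66 * m₁ / s : ℕ) : ℝ) + 9) ≤ 18 * 26409 * (t / σ) := by
        have e2 : ((66 * m₁ / s : ℕ) : ℝ) ≤ 13200 * (t / σ) := by
          refine Nat.cast_div_le.trans ?_
          push_cast
          rw [div_le_iff₀ hs0]
          have : 13200 * (t / σ) * (σ / 200) = 66 * t := by field_simp; norm_num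
          calc (66:ℝ) * m₁ ≤ 66 * t := by linarith
            _ = 13200 * (t / σ) * (σ / 200) := this.symm
            _ ≤ _ := by gcongr
        have e3 : 1 ≤ t / σ := by rw [one_le_div hσ0]; exact hσt
        linarith
      have prodle : (((ball (66 * n) 0).image (rd s)).card : ℝ) *
          (18 * (2 * ((66 * m₁ / s : ℕ) : ℝ) + 9) * (C0 * t ^ (-q))) ≤ 1 / 2 := by
        have e1 : (((ball (66 * n) 0).image (rd s)).card : ℝ) *
            (18 * (2 * ((66 * m₁ / s : ℕ) : ℝ) + 9) * (C0 * t ^ (-q))) ≤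
            (26402 * (n / σ)) ^ 2 * (18 * 26409 * (t / σ) * (C0 * t ^ (-q))) := by gcongr
        have e2 : (26402 * ((n:ℝ) / σ)) ^ 2 * (18 * 26409 * (t / σ) * (C0 * t ^ (-q))) =
            (26402 ^ 2 * (18 * 26409) * C0) * ((n:ℝ) ^ 2 * (t * t ^ (-q) / σ ^ 3)) := by
          ring
        have e3 : t * t ^ (-q) / σ ^ 3 = t ^ (1 - 3 * b1 - q) := by
          have g1 : t * t ^ (-q) = t ^ (1 + -q) := by rw [Real.rpow_add ht0, Real.rpow_one]
          have g2 : σ ^ 3 = t ^ (3 * b1) := by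
            rw [hσ, ← Real.rpow_natCast, ← Real.rpow_mul ht0.le]
            congr 1
            push_cast
            ring
          rw [g1, g2, ← Real.rpow_sub ht0]
          congr 1
          ring
        have e4 : (n:ℝ) ^ 2 * t ^ (1 - 3 * b1 - q) = (n:ℝ) ^ (2 + τ * (1 - 3 * b1 - q)) := by
          rw [ht, ← Real.rpow_mul hn0.le, ← Real.rpow_two, ← Real.rpow_add hn0]
        rw [e2, e3, e4] at e1
        linarith
      have p3 : ((((ball (66 * n) 0).image (rd s)).card : ℝ) *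
          (18 * (2 * ((66 * m₁ / s : ℕ) : ℝ) + 9) * (C0 * t ^ (-q)))) ^ r ≤
          Real.exp (-((n:ℝ) ^ κ')) := by
        refine (pow_le_pow_left₀ (by positivity) prodle r).trans ?_
        rw [half_exp]
        have e1 : Real.exp (-(Real.log 2 * (r:ℝ))) ≤ 2 * Real.exp (-(Real.log 2 * (n:ℝ) ^ ε)) := by
          have : (2:ℝ) * Real.exp (-(Real.log 2 * (n:ℝ) ^ ε)) =
              Real.exp (Real.log 2 + -(Real.log 2 * (n:ℝ) ^ ε)) := by
            rw [Real.exp_add, Real.exp_log two_pos]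
          rw [this, Real.exp_le_exp]
          have e3 := mul_le_mul_of_nonneg_left r_lo.le hl2.le
          rw [mul_add, mul_one] at e3
          linarith only [e3]
        have e2 : 2 * Real.exp (-(Real.log 2 * (n:ℝ) ^ ε)) ≤
            2 * (n:ℝ) ^ 4 * Real.exp (-(Real.log 2 * (n:ℝ) ^ ε)) := by
          have : (1:ℝ) ≤ (n:ℝ) ^ 4 := one_le_pow₀ hn1'
          exact mul_le_mul_of_nonneg_right (by linarith only [this]) (Real.exp_pos _).le
        linarith
      have p1 : (133 * (n:ℝ)) ^ 4 * (7 * (1 / 2) ^ s) ≤ Real.exp (-((n:ℝ) ^ κ')) := by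
        refine le_trans ?_ u10
        have e1 : ((1:ℝ) / 2) ^ s ≤ Real.exp (-(Real.log 2 / 200 * (n:ℝ) ^ (τ * b1))) := by
          rw [half_exp, Real.exp_le_exp, Real.rpow_mul hn0.le]
          have : Real.log 2 * (σ / 200) ≤ Real.log 2 * s := by gcongr
          have e2 : Real.log 2 / 200 * ((n:ℝ) ^ τ) ^ b1 = Real.log 2 * (σ / 200) := by
            rw [hσ, ht]; ring
          rw [e2]
          linarith
        calc (133 * (n:ℝ)) ^ 4 * (7 * (1 / 2) ^ s) = 133 ^ 4 * 7 * (n:ℝ) ^ 4 * (1 / 2) ^ s := by ring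
          _ ≤ _ := by gcongr
      have p2 : (133 * (n:ℝ)) ^ 4 * (C5 * Real.exp (-(c5 * ((66 * m₁ : ℕ) : ℝ) ^ κ5))) ≤
          Real.exp (-((n:ℝ) ^ κ')) := by
        refine le_trans ?_ u11
        have e1 : Real.exp (-(c5 * ((66 * m₁ : ℕ) : ℝ) ^ κ5)) ≤
            Real.exp (-(c5 * (n:ℝ) ^ (τ * κ5))) := by
          rw [Real.exp_le_exp, Real.rpow_mul hn0.le]
          have : t ^ κ5 ≤ ((66 * m₁ : ℕ) : ℝ) ^ κ5 :=
            Real.rpow_le_rpow ht0.le (by rw [hpush]; linarith) hκ5.le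
          have e2 := mul_le_mul_of_nonneg_left this hc5.le
          linarith
        calc (133 * (n:ℝ)) ^ 4 * (C5 * Real.exp (-(c5 * ((66 * m₁ : ℕ) : ℝ) ^ κ5)))
            = 133 ^ 4 * C5 * (n:ℝ) ^ 4 * Real.exp (-(c5 * ((66 * m₁ : ℕ) : ℝ) ^ κ5)) := by ring
          _ ≤ _ := by gcongr
      rw [mul_add]
      linarith)
  exact ⟨κ', 1, C', hκ'0, one_pos, hC', fun v _ => by simpa using hfin v⟩

/-- a polynomial bound with a large exponent is a stretched exponential one -/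
lemma boostL (h : Shape μ) {b0 q a : ℝ} (hb0 : 0 < b0) (hb : b0 < 1) (hq0 : 0 < q)
    (hq : 3 * (1 - b0) < q) (hL : Ll μ b0 q) (ha : b0 < a) : Se μ a := by
  -- the exponent b1
  set b1 : ℝ := min ((a + b0) / 2) 1 with hb1
  have e1 : b0 < b1 := lt_min (by linarith) hb
  have e2 : b1 ≤ 1 := min_le_right _ _
  have e3 : b1 < a := lt_of_le_of_lt (min_le_left _ _) (by linarith)
  -- a small η
  have c1 : Tendsto (fun η : ℝ => η + (1 - η) * b1) (𝓝[>] 0) (𝓝 b1) := by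
    have : Tendsto (fun η : ℝ => η + (1 - η) * b1) (𝓝 0) (𝓝 (0 + (1 - 0) * b1)) := by
      apply Continuous.tendsto; fun_prop
    simpa using this.mono_left nhdsWithin_le_nhds
  have c2 : Tendsto (fun η : ℝ => 2 + (1 - η) * (1 - 3 * b1 - q)) (𝓝[>] 0) (𝓝 (3 - 3 * b1 - q)) := by
    have : Tendsto (fun η : ℝ => 2 + (1 - η) * (1 - 3 * b1 - q)) (𝓝 0)
        (𝓝 (2 + (1 - 0) * (1 - 3 * b1 - q))) := by
      apply Continuous.tendsto; fun_prop
    have e : 2 + (1 - 0) * (1 - 3 * b1 - q) = 3 - 3 * b1 - q := by ring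
    rw [e] at this
    exact this.mono_left nhdsWithin_le_nhds
  have c3 : ∀ᶠ η : ℝ in 𝓝[>] 0, η < 1 := by
    filter_upwards [Ioo_mem_nhdsGT one_pos] with η hη using hη.2
  have c4 : ∀ᶠ η : ℝ in 𝓝[>] 0, 0 < η := by
    filter_upwards [Ioo_mem_nhdsGT one_pos] with η hη using hη.1
  obtain ⟨η, h1, h2, h3, h4⟩ := ((c1.eventually_lt_const e3).and
    ((c2.eventually_lt_const (show 3 - 3 * b1 - q < 0 by linarith)).and (c3.and c4))).exists
  set ρ : ℝ := 1 - η / 2 with hρ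
  have hρ0 : 0 < ρ := by rw [hρ]; linarith
  have hρ1 : ρ < 1 := by rw [hρ]; linarith
  have ha0 : 0 < a := hb0.trans ha
  have key : ∀ k : ℕ, Se μ (max (2 * ρ ^ k) a) := by
    intro k
    induction k with
    | zero =>
      refine Se_mono ?_ (Se_two h)
      simp
    | succ k ih =>
      rcases le_total (2 * ρ ^ k) a with hc | hc
      · rw [max_eq_right hc] at ih
        exact Se_mono (le_max_right _ _) ih
      · rw [max_eq_left hc] at ih
        have hA : 0 < 2 * ρ ^ k := by positivity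
        refine stepL h hb0 e1 e2 hq0 h4 h3 hA (lt_of_lt_of_le h1 (le_max_right _ _)) ?_ h2 hL ih
        refine lt_of_lt_of_le ?_ (le_max_left _ _)
        have hρ' : 1 - η < ρ := by rw [hρ]; linarith
        have e4 := mul_lt_mul_of_pos_left hρ' hA
        calc (1 - η) * (2 * ρ ^ k) = 2 * ρ ^ k * (1 - η) := by ring
          _ < 2 * ρ ^ k * ρ := e4
          _ = 2 * ρ ^ (k + 1) := by ring
  have hlim : Tendsto (fun k : ℕ => 2 * ρ ^ k) atTop (𝓝 (2 * 0)) :=
    (tendsto_pow_atTop_nhds_zero_of_lt_one hρ0.le hρ1).const_mul 2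
  rw [mul_zero] at hlim
  obtain ⟨k, hk⟩ := (hlim.eventually (gt_mem_nhds ha0)).exists
  have := key k
  rwa [max_eq_right hk.le] at this

end Q69.FL
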