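import Pool.Agent.Q69.FL.D

/-!
# First passage percolation, lower tail: the outer inclusion and the moments
-/

set_option autoImplicit false

open MeasureTheory ProbabilityTheory Finset Filter
open scoped Topology Pointwise

namespace Q69.FL

open Q70.Fp

variable {μ : ℝ × ℝ → ℝ} {Ω : Type} [MeasurableSpace Ω] {P : Measure Ω} {X : Ed → Ω → ℝ}

/-- failure of the outer inclusion -/
def Ou (X : Ed → Ω → ℝ) (μ : ℝ × ℝ → ℝ) (c t : ℝ) : Set Ω :=
  {ω | ¬ ({x : ℝ × ℝ | ∃ v : ℤ × ℤ, TT (fun e => X e ω) 0 v ≤ t ∧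
    |x.1 - (v.1 : ℝ)| ≤ 1 / 2 ∧ |x.2 - (v.2 : ℝ)| ≤ 1 / 2} ⊆ c • {x : ℝ × ℝ | μ x ≤ 1})}

lemma mem_smul_iff (h : Shape μ) {c : ℝ} (hc : 0 < c) (x : ℝ × ℝ) :
    x ∈ c • {x : ℝ × ℝ | μ x ≤ 1} ↔ μ x ≤ c := by
  rw [Set.mem_smul_set_iff_inv_smul_mem₀ hc.ne']
  show μ (c⁻¹ • x) ≤ 1 ↔ μ x ≤ c
  rw [h.hom _ _ (by positivity), inv_mul_le_iff₀ hc, mul_one]

lemma mem_Ou (h : Shape μ) {c t : ℝ} (hc : 0 < c) {v : ℤ × ℤ} (hv : c < mz μ v) {ω : Ω}
    (hω : TT (fun e => X e ω) 0 v ≤ t) : ω ∈ Ou X μ c t := by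
  intro hsub
  have h1 := hsub (a := (((v.1:ℝ), (v.2:ℝ)) : ℝ × ℝ)) ⟨v, hω, by simp, by simp⟩
  rw [mem_smul_iff h hc] at h1
  exact absurd h1 (not_le.2 hv)

lemma Ou_sub (h : Shape μ) {c t : ℝ} (hc : 0 < c) :
    Ou X μ c t ⊆ {ω | ∃ u : ℤ × ℤ, c - 3 < mz μ u ∧ TT (fun e => X e ω) 0 u ≤ t} := by
  intro ω hω
  simp only [Ou, Set.mem_setOf_eq, Set.not_subset] at hω
  obtain ⟨x, ⟨v, hv1, hv2, hv3⟩, hx⟩ := hω
  rw [mem_smul_iff h hc, not_le] at hx
  refine ⟨v, ?_, hv1⟩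
  have h1 := mu_lip h ((v.1:ℝ), (v.2:ℝ)) x
  simp only at h1
  show c - 3 < μ ((v.1:ℝ), (v.2:ℝ))
  linarith

/-- a short walk to a far point passes a point at a given distance -/
lemma pass {w : Sym2 (ℤ × ℤ) → ℝ} (hw : ∀ e, 0 ≤ w e) {u : ℤ × ℤ} {R : ℕ} {s : ℝ}
    (h : TT w 0 u < s) (hR : R ≤ dd 0 u) : ∃ u', dd 0 u' = R ∧ TT w 0 u' < s := by
  classical
  obtain ⟨n, p, hp, hlt⟩ := exists_lt h
  have hex : ∃ j, R ≤ dd 0 (p j) := ⟨n, by rw [hp.2.1]; exact hR⟩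
  obtain ⟨j0, h1, h2⟩ : ∃ j0, R ≤ dd 0 (p j0) ∧ ∀ j < j0, ¬ R ≤ dd 0 (p j) :=
    ⟨Nat.find hex, Nat.find_spec hex, fun j hj => Nat.find_min hex hj⟩
  have h3 : j0 ≤ n := by
    by_contra hcon
    exact h2 n (by omega) (by rw [hp.2.1]; exact hR)
  refine ⟨p j0, ?_, ?_⟩
  · rcases Nat.eq_zero_or_pos j0 with h0 | h0
    · subst h0
      rw [hp.1, dd_self] at h1 ⊢
      omega
    · have e1 := h2 (j0 - 1) (by omega)
      have e2 := adj_iff.1 (hp.2.2 (j0 - 1) (by omega))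
      rw [show j0 - 1 + 1 = j0 by omega] at e2
      have e3 := dd_tri 0 (p (j0 - 1)) (p j0)
      omega
  · exact lt_of_le_of_lt (TT_le hw ⟨hp.1, rfl, fun i hi => hp.2.2 i (by omega)⟩)
      (lt_of_le_of_lt (Wt_mono hw p h3) hlt)

lemma absorbR (K : ℝ) {c κ κ' : ℝ} (hc : 0 < c) (hκ' : 0 < κ') (h : κ' < κ) :
    ∀ᶠ t : ℝ in atTop, K * t ^ 2 * Real.exp (-(c * t ^ κ)) ≤ Real.exp (-(t ^ κ')) := by
  have hκ : 0 < κ := hκ'.trans h
  have h1 : Tendsto (fun t : ℝ => (t ^ κ) ^ (2 / κ) * Real.exp (-(c / 2) * t ^ κ)) atTop (𝓝 0) :=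
    (tendsto_rpow_mul_exp_neg_mul_atTop_nhds_zero (2 / κ) (c / 2) (by positivity)).comp
      (tendsto_rpow_atTop hκ)
  have h2 := rpow_small (K := 2 / c) h
  filter_upwards [h1.eventually_lt_const (show (0:ℝ) < 1 / (|K| + 1) by positivity), h2,
    eventually_gt_atTop 0] with t e1 e2 hn0
  have e3 : (t ^ κ) ^ (2 / κ) = t ^ 2 := by
    rw [← Real.rpow_mul hn0.le, show κ * (2 / κ) = ((2:ℕ):ℝ) by field_simp; norm_num, Real.rpow_natCast]
  rw [e3] at e1
  have e4 : t ^ κ' ≤ c / 2 * t ^ κ := by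
    have := mul_le_mul_of_nonneg_left e2 (show 0 ≤ c / 2 by positivity)
    have e5 : c / 2 * (2 / c * t ^ κ') = t ^ κ' := by field_simp
    linarith
  have e5 : Real.exp (-(c * t ^ κ)) = Real.exp (-(c / 2) * t ^ κ) * Real.exp (-(c / 2 * t ^ κ)) := by
    rw [← Real.exp_add]; congr 1; ring
  have e6 : Real.exp (-(c / 2 * t ^ κ)) ≤ Real.exp (-(t ^ κ')) := Real.exp_le_exp.2 (by linarith)
  have e7 : K * (t ^ 2 * Real.exp (-(c / 2) * t ^ κ)) ≤ 1 := by
    have f1 : 0 ≤ t ^ 2 * Real.exp (-(c / 2) * t ^ κ) := by positivity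
    have f2 : K * (t ^ 2 * Real.exp (-(c / 2) * t ^ κ)) ≤
        (|K| + 1) * (t ^ 2 * Real.exp (-(c / 2) * t ^ κ)) :=
      mul_le_mul_of_nonneg_right (by linarith [le_abs_self K]) f1
    have f3 : (|K| + 1) * (t ^ 2 * Real.exp (-(c / 2) * t ^ κ)) ≤ (|K| + 1) * (1 / (|K| + 1)) :=
      mul_le_mul_of_nonneg_left e1.le (by positivity)
    have f4 : (|K| + 1) * (1 / (|K| + 1)) = 1 := by
      have : |K| + 1 ≠ 0 := by positivity
      field_simp
    linarith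
  calc K * t ^ 2 * Real.exp (-(c * t ^ κ))
      = (K * (t ^ 2 * Real.exp (-(c / 2) * t ^ κ))) * Real.exp (-(c / 2 * t ^ κ)) := by
        rw [e5]; ring
    _ ≤ 1 * Real.exp (-(c / 2 * t ^ κ)) := mul_le_mul_of_nonneg_right e7 (Real.exp_pos _).le
    _ ≤ _ := by rw [one_mul]; exact e6

lemma one_add_mul {b ζ t : ℝ} (ht : 0 < t) : (1 + t ^ (b - 1 + ζ)) * t = t + t ^ (b + ζ) := by
  have : t ^ (b - 1 + ζ) * t = t ^ (b + ζ) := by
    rw [← Real.rpow_add_one ht.ne']; congr 1; ring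
  rw [add_mul, one_mul, this]

/-- stretched exponential one-point bounds give the outer inclusion -/
lemma outer_of_Se [IsProbabilityMeasure P] (hW : Wts P X) (h : Shape μ) {b : ℝ} (hb : 0 < b)
    (hS : ∀ a, b < a → Se μ a) {ζ : ℝ} (hζ : 0 < ζ) :
    ∃ κ : ℝ, 0 < κ ∧ ∀ᶠ t : ℝ in atTop,
      (P (Ou X μ ((1 + t ^ (b - 1 + ζ)) * t) t)).toReal ≤ 2 * Real.exp (-(t ^ κ)) := by
  set a : ℝ := b + ζ / 2 with ha
  have ha0 : 0 < a := by positivity
  obtain ⟨κ0, c0, C0, hκ0, hc0, hC0, hU⟩ := unifL h ha0 (hS a (by rw [ha]; linarith))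
  set κ : ℝ := min (κ0 / 2) (1 / 2) with hκ
  have hκp : 0 < κ := lt_min (by positivity) (by norm_num)
  have k1 : κ < κ0 := lt_of_le_of_lt (min_le_left _ _) (by linarith)
  have k2 : κ < 1 := lt_of_le_of_lt (min_le_right _ _) (by norm_num)
  refine ⟨κ, hκp, ?_⟩
  filter_upwards [eventually_ge_atTop 1, rpow_small (K := 2 * 134 ^ a) (show a < b + ζ by rw [ha]; linarith),
    rpow_small (K := 6) (show 0 < b + ζ by positivity), absorbR (266 ^ 2 * C0) hc0 hκp k1,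
    absorbR (266 ^ 2) (Real.log_pos one_lt_two) hκp k2] with t ht s1 s2 s3 s4
  have ht0 : 0 < t := by linarith
  rw [Real.rpow_zero, mul_one] at s2
  rw [Real.rpow_one] at s4
  rw [one_add_mul ht0]
  have htb : 0 < t ^ (b + ζ) := by positivity
  set c : ℝ := t + t ^ (b + ζ) with hc
  have hc0' : 0 < c := by positivity
  set k : ℕ := ⌈t⌉₊ with hk
  have hk1 : t ≤ k := Nat.le_ceil _
  have hk2 : (k:ℝ) < t + 1 := Nat.ceil_lt_add_one ht0.le
  have hk3 : 1 ≤ k := by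
    have : (1:ℝ) ≤ k := by linarith
    exact_mod_cast this
  have hm : ((66 * k : ℕ) : ℝ) ≤ 134 * t := by push_cast; linarith
  have hm' : t ≤ ((66 * k : ℕ) : ℝ) := by push_cast; linarith
  have hm0 : (0:ℝ) < ((66 * k : ℕ) : ℝ) := by linarith
  have hsub : Ou X μ c t ⊆ ((⋃ u ∈ ball (66 * k) 0,
      {ω | TT (fun e => X e ω) 0 u ∈ Set.Iio (mz μ u - ((66 * k : ℕ) : ℝ) ^ a)}) ∪
      (⋃ u ∈ (ball (66 * k) 0).filter (fun u => dd 0 u = 66 * k),
        {ω | TT (fun e => X e ω) 0 u ∈ Set.Iio (3 * (k:ℝ))})) ∪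
      {ω | ¬ (pw (fun e => X e ω) = fun e => X e ω)} := by
    intro ω hω
    obtain ⟨u, hu1, hu2⟩ := Ou_sub h hc0' hω
    by_cases hpos : pw (fun e => X e ω) = fun e => X e ω
    · refine Or.inl ?_
      have hnn : ∀ e, 0 ≤ (fun e => X e ω) e := by
        intro e
        rw [← hpos]
        exact pw_nonneg _ e
      by_cases hd : dd 0 u ≤ 66 * k
      · refine Or.inl ?_
        simp only [Set.mem_iUnion, Set.mem_setOf_eq, exists_prop, Set.mem_Iio]
        refine ⟨u, mem_ball.2 hd, ?_⟩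
        have e1 : ((66 * k : ℕ) : ℝ) ^ a ≤ 134 ^ a * t ^ a := by
          rw [← Real.mul_rpow (by norm_num) ht0.le]
          exact Real.rpow_le_rpow hm0.le hm ha0.le
        linarith
      · refine Or.inr ?_
        simp only [Set.mem_iUnion, Set.mem_setOf_eq, exists_prop, Set.mem_Iio]
        obtain ⟨u', hu3, hu4⟩ := pass (s := 3 * (k:ℝ)) hnn (by linarith) (show 66 * k ≤ dd 0 u by omega)
        exact ⟨u', Finset.mem_filter.2 ⟨mem_ball.2 hu3.le, hu3⟩, hu4⟩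
    · exact Or.inr hpos
  have e0 : P.real {ω | ¬ (pw (fun e => X e ω) = fun e => X e ω)} = 0 := by
    rw [measureReal_def, ae_iff.1 hW.ae, ENNReal.toReal_zero]
  have ecard : ((ball (66 * k) 0).card : ℝ) ≤ 266 ^ 2 * t ^ 2 := by
    have f1 : ((ball (66 * k) 0).card : ℝ) ≤ ((2 * (66 * k) + 1 : ℕ) : ℝ) ^ 2 := by
      exact_mod_cast card_ball (66 * k)
    have f2 : ((2 * (66 * k) + 1 : ℕ) : ℝ) ≤ 266 * t := by push_cast; linarith
    calc _ ≤ ((2 * (66 * k) + 1 : ℕ) : ℝ) ^ 2 := f1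
      _ ≤ (266 * t) ^ 2 := pow_le_pow_left₀ (by positivity) f2 2
      _ = _ := by ring
  have e1 : P.real (⋃ u ∈ ball (66 * k) 0,
      {ω | TT (fun e => X e ω) 0 u ∈ Set.Iio (mz μ u - ((66 * k : ℕ) : ℝ) ^ a)}) ≤
      Real.exp (-(t ^ κ)) := by
    refine le_trans ?_ s3
    calc _ ≤ ∑ _u ∈ ball (66 * k) 0, C0 * Real.exp (-(c0 * t ^ κ0)) := by
          refine (measureReal_biUnion_finset_le _ _).trans (Finset.sum_le_sum fun u hu => ?_)
          rw [hW.real u measurableSet_Iio]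
          refine (hU (66 * k) (by omega) u (mem_ball.1 hu)).trans ?_
          refine mul_le_mul_of_nonneg_left (Real.exp_le_exp.2 (neg_le_neg ?_)) hC0.le
          exact mul_le_mul_of_nonneg_left (Real.rpow_le_rpow ht0.le hm' hκ0.le) hc0.le
      _ = ((ball (66 * k) 0).card : ℝ) * (C0 * Real.exp (-(c0 * t ^ κ0))) := by
          rw [Finset.sum_const, nsmul_eq_mul]
      _ ≤ (266 ^ 2 * t ^ 2) * (C0 * Real.exp (-(c0 * t ^ κ0))) := by gcongr
      _ = _ := by ring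
  have e2 : P.real (⋃ u ∈ (ball (66 * k) 0).filter (fun u => dd 0 u = 66 * k),
      {ω | TT (fun e => X e ω) 0 u ∈ Set.Iio (3 * (k:ℝ))}) ≤ Real.exp (-(t ^ κ)) := by
    refine le_trans ?_ s4
    calc _ ≤ ∑ _u ∈ (ball (66 * k) 0).filter (fun u => dd 0 u = 66 * k),
          Real.exp (-(Real.log 2 * t)) := by
          refine (measureReal_biUnion_finset_le _ _).trans (Finset.sum_le_sum fun u hu => ?_)
          rw [hW.real u measurableSet_Iio]
          rw [Finset.mem_filter] at hu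
          refine (low_le (m := k) hu.2.ge).trans ?_
          rw [half_exp]
          refine Real.exp_le_exp.2 (neg_le_neg ?_)
          exact mul_le_mul_of_nonneg_left hk1 (Real.log_pos one_lt_two).le
      _ = (((ball (66 * k) 0).filter (fun u => dd 0 u = 66 * k)).card : ℝ) *
          Real.exp (-(Real.log 2 * t)) := by rw [Finset.sum_const, nsmul_eq_mul]
      _ ≤ (266 ^ 2 * t ^ 2) * Real.exp (-(Real.log 2 * t)) := by
          refine mul_le_mul_of_nonneg_right (le_trans ?_ ecard) (Real.exp_pos _).le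
          exact_mod_cast Finset.card_filter_le _ _
  have e3 : P.real (Ou X μ c t) ≤ _ := measureReal_mono hsub (measure_ne_top _ _)
  have e4 := measureReal_union_le (μ := P) ((⋃ u ∈ ball (66 * k) 0,
      {ω | TT (fun e => X e ω) 0 u ∈ Set.Iio (mz μ u - ((66 * k : ℕ) : ℝ) ^ a)}) ∪
      (⋃ u ∈ (ball (66 * k) 0).filter (fun u => dd 0 u = 66 * k),
        {ω | TT (fun e => X e ω) 0 u ∈ Set.Iio (3 * (k:ℝ))}))
      {ω | ¬ (pw (fun e => X e ω) = fun e => X e ω)}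
  have e5 := measureReal_union_le (μ := P) (⋃ u ∈ ball (66 * k) 0,
      {ω | TT (fun e => X e ω) 0 u ∈ Set.Iio (mz μ u - ((66 * k : ℕ) : ℝ) ^ a)})
      (⋃ u ∈ (ball (66 * k) 0).filter (fun u => dd 0 u = 66 * k),
        {ω | TT (fun e => X e ω) 0 u ∈ Set.Iio (3 * (k:ℝ))})
  show P.real (Ou X μ c t) ≤ _
  linarith

/-- the outer inclusion gives one-point bounds -/
lemma ll_of_outer [IsProbabilityMeasure P] (hW : Wts P X) (h : Shape μ) {b ζ q : ℝ} (hb : 0 < b)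
    (hζ : 0 < ζ) (hζb : ζ < 1 - b) (hq : 0 < q)
    (hO : Asymptotics.IsBigO atTop
      (fun t : ℝ => (P (Ou X μ ((1 + t ^ (b - 1 + ζ / 2)) * t) t)).toReal) (fun t : ℝ => t ^ (-q))) :
    Ll μ (b + ζ) q := by
  obtain ⟨C, hC, hO⟩ := hO.exists_pos
  rw [Asymptotics.isBigOWith_iff, eventually_atTop] at hO
  obtain ⟨t0, hO⟩ := hO
  have hs1 := (tendsto_natCast_atTop_atTop (R := ℝ)).eventually
    (rpow_small (K := 4) (show b + ζ / 2 < b + ζ by linarith))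
  have hs2 := (tendsto_natCast_atTop_atTop (R := ℝ)).eventually
    (rpow_small (K := 44) (show b + ζ < 1 by linarith))
  refine of_ev (fun v => measureReal_le_one) (C := C * 44 ^ q) hq (by positivity) ?_
  filter_upwards [eventually_ge_atTop 1, hs1, hs2,
    (tendsto_natCast_atTop_atTop (R := ℝ)).eventually (eventually_ge_atTop (44 * |t0|)),
    (tendsto_natCast_atTop_atTop (R := ℝ)).eventually (eventually_gt_atTop 0)] with n hn1 s1 s2 s3 hn0 v hv
  rw [Real.rpow_one] at s2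
  have m1 := mz_low h v
  have m2 := mz_up h v
  rw [hv] at m1 m2
  set s : ℝ := (n:ℝ) ^ (b + ζ) with hs
  have hs0 : 0 < s := by positivity
  set t : ℝ := mz μ v - s with ht
  have ht1 : (n:ℝ) / 44 ≤ t := by rw [ht]; linarith
  have ht0 : 0 < t := lt_of_lt_of_le (by positivity) ht1
  have ht3 : t ≤ 3 * n := by rw [ht]; linarith
  have hpow : t ^ (b + ζ / 2) < s := by
    have e1 : t ^ (b + ζ / 2) ≤ 3 * (n:ℝ) ^ (b + ζ / 2) := by
      calc t ^ (b + ζ / 2) ≤ (3 * (n:ℝ)) ^ (b + ζ / 2) := Real.rpow_le_rpow ht0.le ht3 (by linarith)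
        _ = 3 ^ (b + ζ / 2) * (n:ℝ) ^ (b + ζ / 2) := Real.mul_rpow (by norm_num) hn0.le
        _ ≤ 3 ^ (1:ℝ) * (n:ℝ) ^ (b + ζ / 2) := by
            gcongr
            · norm_num
            · linarith
        _ = _ := by rw [Real.rpow_one]
    have e2 : 0 < (n:ℝ) ^ (b + ζ / 2) := by positivity
    linarith
  have e1 := hO t (by
    have := le_abs_self t0
    linarith)
  rw [one_add_mul ht0, Real.norm_eq_abs, abs_of_nonneg ENNReal.toReal_nonneg, Real.norm_eq_abs,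
    abs_of_nonneg (by positivity)] at e1
  have e2 : nu.real {w | TT (pw w) 0 v < mz μ v - (dd 0 v : ℝ) ^ (b + ζ)} ≤
      P.real (Ou X μ (t + t ^ (b + ζ / 2)) t) := by
    have f1 := hW.real v (measurableSet_Iio (a := t))
    have f2 : {w : Ed → ℝ | TT (pw w) 0 v < mz μ v - (dd 0 v : ℝ) ^ (b + ζ)} =
        {w | TT (pw w) 0 v ∈ Set.Iio t} := by rw [hv]; rfl
    rw [f2, ← f1]
    refine measureReal_mono ?_ (measure_ne_top _ _)
    intro ω hω
    refine mem_Ou h (by positivity) ?_ (le_of_lt hω)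
    rw [ht] at hpow ⊢
    linarith
  refine e2.trans (le_trans e1 ?_)
  have e3 : t ^ (-q) ≤ 44 ^ q * (n:ℝ) ^ (-q) := by
    calc t ^ (-q) ≤ ((n:ℝ) / 44) ^ (-q) := Real.rpow_le_rpow_of_nonpos (by positivity) ht1 (by linarith)
      _ = 44 ^ q * (n:ℝ) ^ (-q) := by
        rw [Real.div_rpow hn0.le (by norm_num), Real.rpow_neg (by norm_num : (0:ℝ) ≤ 44), div_inv_eq_mul,
          mul_comm]
  rw [mul_assoc]
  exact mul_le_mul_of_nonneg_left e3 hC.le

/-- the moments of the negative part -/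
lemma neg_of_Se (h : Shape μ) {a : ℝ} (ha : 0 < a) (hS : Se μ a) {p : ℝ} (hp : 0 < p) :
    ∃ C : ℝ, 0 < C ∧ ∀ v : ℤ × ℤ, v ≠ 0 →
      ∫ w, max (mz μ v - TT (pw w) 0 v) 0 ^ p ∂nu ≤ C * (dd 0 v : ℝ) ^ (a * p) := by
  obtain ⟨κ, c, C, hκ, hc, hC, hS⟩ := hS
  obtain ⟨C1, hC1, hE⟩ := exp_poly (p / κ) (by positivity) hc
  refine ⟨1 + 3 ^ p * (C * C1), by positivity, fun v hv => ?_⟩
  set n : ℝ := (dd 0 v : ℝ) with hn
  have hn1 : (1:ℝ) ≤ n := by rw [hn]; exact_mod_cast dd_pos hv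
  have hn0 : 0 < n := by linarith
  set E : Set (Ed → ℝ) := {w | TT (pw w) 0 v < mz μ v - n ^ a} with hE'
  have hEm : MeasurableSet E := measurableSet_lt (measurable_TT 0 v) measurable_const
  have hup := mz_up h v
  have pt : ∀ w : Ed → ℝ, max (mz μ v - TT (pw w) 0 v) 0 ^ p ≤
      n ^ (a * p) + (3 * n) ^ p * E.indicator (1 : (Ed → ℝ) → ℝ) w := by
    intro w
    have e1 := TT_nonneg (pw_nonneg w) 0 v
    by_cases hw : w ∈ E
    · rw [Set.indicator_of_mem hw, Pi.one_apply, mul_one]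
      have e2 : max (mz μ v - TT (pw w) 0 v) 0 ^ p ≤ (3 * n) ^ p :=
        Real.rpow_le_rpow (le_max_right _ _) (max_le (by linarith) (by positivity)) hp.le
      have e3 : 0 < n ^ (a * p) := by positivity
      linarith
    · rw [Set.indicator_of_notMem hw, mul_zero, add_zero, Real.rpow_mul hn0.le]
      rw [hE', Set.mem_setOf_eq, not_lt] at hw
      exact Real.rpow_le_rpow (le_max_right _ _) (max_le (by linarith) (by positivity)) hp.le
  have hi1 : Integrable (E.indicator (1 : (Ed → ℝ) → ℝ)) nu := (integrable_const (1:ℝ)).indicator hEm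
  have hi2 : Integrable (fun w => n ^ (a * p) + (3 * n) ^ p * E.indicator (1 : (Ed → ℝ) → ℝ) w) nu :=
    (integrable_const _).add (hi1.const_mul _)
  have e1 : ∫ w, max (mz μ v - TT (pw w) 0 v) 0 ^ p ∂nu ≤
      ∫ w, (n ^ (a * p) + (3 * n) ^ p * E.indicator (1 : (Ed → ℝ) → ℝ) w) ∂nu :=
    integral_mono_of_nonneg (Eventually.of_forall fun w => by positivity) hi2
      (Eventually.of_forall pt)
  rw [integral_add (integrable_const _) (hi1.const_mul _),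
    integral_const_mul, integral_indicator_one hEm, integral_const, probReal_univ, one_smul] at e1
  have e2 : nu.real E ≤ C * (C1 * n ^ (-p)) := by
    refine (hS v hv).trans (mul_le_mul_of_nonneg_left ?_ hC.le)
    have := hE (n ^ κ) (Real.one_le_rpow hn1 hκ.le)
    rwa [← Real.rpow_mul hn0.le, show κ * -(p / κ) = -p by field_simp] at this
  have e3 : (3 * n) ^ p * nu.real E ≤ 3 ^ p * (C * C1) := by
    calc (3 * n) ^ p * nu.real E ≤ (3 * n) ^ p * (C * (C1 * n ^ (-p))) := by gcongr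
      _ = 3 ^ p * (C * C1) * (n ^ p * n ^ (-p)) := by
          rw [Real.mul_rpow (by norm_num) hn0.le]; ring
      _ = _ := by rw [← Real.rpow_add hn0, add_neg_cancel, Real.rpow_zero, mul_one]
  have e4 : 1 ≤ n ^ (a * p) := Real.one_le_rpow hn1 (by positivity)
  have e5 : 3 ^ p * (C * C1) ≤ 3 ^ p * (C * C1) * n ^ (a * p) := le_mul_of_one_le_right (by positivity) e4
  linarith

end Q69.FL
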